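import Pool.Agent.ESz.Defs

/-!
# A small hitting set

Let `X u = {x : (x, u.1) ∈ place Φ u.2}` (vertices `u = (j, i)`); the sum of `|X u|` over all `u`
is `∑ i, (place Φ i).card ≤ A`. Call `u` heavy if `|X u| > M`: the number `h` of heavy `u`
satisfies `2 h M ≤ 2 A ≤ M m`, and in fact `2 h ≤ m` (if `M = 0` then `A = 0` and no `u` is
heavy). So at least `m - h ≥ m / 2 ≥ ν` of the `j` have no heavy `(j, i)`; choose a set `R` of
exactly `ν` of them, and let `B ⊆ E` be the set of all `g ∈ E` of the form `s(x, y)` with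
`x ∈ X (j, 1)`, `y ∈ X (j, 2)`, `j ∈ R` (this is the edge `k = 0`). Then `|B| ≤ ν M^2`. Let `ψ` be
a copy. Fewer than `ν` of the vertices `u` have `ψ u ∉ X u`, so for some `j ∈ R` all three
vertices satisfy `ψ (j, i) ∈ X (j, i)` and `tri ψ j 0 ∈ B`.
-/

set_option autoImplicit false

namespace Pool.Agent.ESz

/-- A small set of host edges which meets all copies. -/
theorem exists_hitting {V : Type} [DecidableEq V] {m M ν A : ℕ}
    {σ : ZMod 3 → Equiv.Perm (Fin m)} {E : Finset (Sym2 V)} {f : Sym2 V → ℕ}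
    (Φ : Finset (Fin m × ZMod 3 → V)) (hA : ∑ i, (place Φ i).card ≤ A) (hM : 2 * A ≤ M * m)
    (hν : 2 * ν ≤ m)
    (hψ : ∀ ψ, IsCopy σ E f ψ →
      (Finset.univ.filter (fun u : Fin m × ZMod 3 => (ψ u, u.1) ∉ place Φ u.2)).card < ν) :
    ∃ B : Finset (Sym2 V), B ⊆ E ∧ B.card ≤ ν * M ^ 2 ∧
      ∀ ψ, IsCopy σ E f ψ → ∃ j k, tri ψ j k ∈ B := by
  classical
  set X : Fin m × ZMod 3 → Finset V := fun u =>
    ((place Φ u.2).filter (fun p => p.2 = u.1)).image Prod.fst with hX
  have hmemX : ∀ (u : Fin m × ZMod 3) (x : V), x ∈ X u ↔ (x, u.1) ∈ place Φ u.2 := by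
    intro u x
    rw [hX]
    simp only [Finset.mem_image, Finset.mem_filter]
    constructor
    · rintro ⟨⟨a, b⟩, ⟨h1, h2⟩, h3⟩
      simp only at h2 h3
      subst h2; subst h3
      exact h1
    · intro h
      exact ⟨(x, u.1), ⟨h, rfl⟩, rfl⟩
  have hsum : ∑ u, (X u).card ≤ A := by
    refine le_trans ?_ hA
    rw [Fintype.sum_prod_type_right]
    apply Finset.sum_le_sum
    intro i _
    have h1 : (place Φ i).card = ∑ j : Fin m, ((place Φ i).filter (fun p => p.2 = j)).card :=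
      Finset.card_eq_sum_card_fiberwise (fun _ _ => Finset.mem_coe.2 (Finset.mem_univ _))
    rw [h1]
    apply Finset.sum_le_sum
    intro j _
    exact Finset.card_image_le
  set Hv : Finset (Fin m × ZMod 3) := Finset.univ.filter (fun u => M < (X u).card) with hHv
  have hHv1 : Hv.card * (M + 1) ≤ A := by
    refine le_trans ?_ hsum
    calc Hv.card * (M + 1) = ∑ _u ∈ Hv, (M + 1) := by rw [Finset.sum_const, smul_eq_mul]
      _ ≤ ∑ u ∈ Hv, (X u).card := Finset.sum_le_sum fun u hu => (Finset.mem_filter.1 hu).2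
      _ ≤ ∑ u, (X u).card := Finset.sum_le_sum_of_subset (Finset.subset_univ _)
  have hHv2 : 2 * Hv.card ≤ m := by
    have h1 : (M + 1) * (2 * Hv.card) ≤ (M + 1) * m := by nlinarith
    exact Nat.le_of_mul_le_mul_left h1 (Nat.succ_pos M)
  set L : Finset (Fin m) := Finset.univ \ Hv.image Prod.fst with hL
  have hLc : ν ≤ L.card := by
    have h1 : L.card = m - (Hv.image Prod.fst).card := by
      rw [hL, Finset.card_sdiff_of_subset (Finset.subset_univ _), Finset.card_univ,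
        Fintype.card_fin]
    have h2 : (Hv.image Prod.fst).card ≤ Hv.card := Finset.card_image_le
    omega
  have hLl : ∀ j ∈ L, ∀ i, (X (j, i)).card ≤ M := by
    intro j hj i
    by_contra hcon
    push Not at hcon
    rw [hL, Finset.mem_sdiff] at hj
    apply hj.2
    exact Finset.mem_image.2 ⟨(j, i), Finset.mem_filter.2 ⟨Finset.mem_univ _, hcon⟩, rfl⟩
  obtain ⟨R, hRL, hRc⟩ := Finset.exists_subset_card_eq hLc
  refine ⟨E.filter (fun g => ∃ j ∈ R, ∃ x ∈ X (j, 1), ∃ y ∈ X (j, 2), g = s(x, y)),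
    Finset.filter_subset _ _, ?_, ?_⟩
  · have hsub : E.filter (fun g => ∃ j ∈ R, ∃ x ∈ X (j, 1), ∃ y ∈ X (j, 2), g = s(x, y)) ⊆
        R.biUnion (fun j => ((X (j, 1)) ×ˢ (X (j, 2))).image (fun z => s(z.1, z.2))) := by
      intro g hg
      obtain ⟨_, j, hj, x, hx, y, hy, rfl⟩ := Finset.mem_filter.1 hg
      exact Finset.mem_biUnion.2 ⟨j, hj, Finset.mem_image.2
        ⟨(x, y), Finset.mem_product.2 ⟨hx, hy⟩, rfl⟩⟩
    refine (Finset.card_le_card hsub).trans (Finset.card_biUnion_le.trans ?_)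
    calc ∑ j ∈ R, (((X (j, 1)) ×ˢ (X (j, 2))).image (fun z => s(z.1, z.2))).card
        ≤ ∑ _j ∈ R, M ^ 2 := by
          apply Finset.sum_le_sum
          intro j hj
          refine Finset.card_image_le.trans ?_
          rw [Finset.card_product, sq]
          exact Nat.mul_le_mul (hLl j (hRL hj) 1) (hLl j (hRL hj) 2)
      _ = ν * M ^ 2 := by rw [Finset.sum_const, smul_eq_mul, hRc]
  · intro ψ hc
    set D : Finset (Fin m × ZMod 3) :=
      Finset.univ.filter (fun u : Fin m × ZMod 3 => (ψ u, u.1) ∉ place Φ u.2) with hD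
    have hDc : D.card < R.card := by rw [hRc]; exact hψ ψ hc
    have h1 : ¬ R ⊆ D.image Prod.fst := by
      intro h
      have := (Finset.card_le_card h).trans Finset.card_image_le
      omega
    rw [Finset.not_subset] at h1
    obtain ⟨j, hjR, hjD⟩ := h1
    have h2 : ∀ i, ψ (j, i) ∈ X (j, i) := by
      intro i
      rw [hmemX]
      by_contra hcon
      exact hjD (Finset.mem_image.2 ⟨(j, i), Finset.mem_filter.2 ⟨Finset.mem_univ _, hcon⟩, rfl⟩)
    refine ⟨j, 0, Finset.mem_filter.2 ⟨hc.mem j 0, j, hjR, ψ (j, 1), h2 1, ψ (j, 2), h2 2, ?_⟩⟩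
    unfold tri
    rw [zero_add, zero_add]

/-- The `3 m` edges of a copy are different. -/
theorem tri_injective {V : Type} {m : ℕ} {φ : Fin m × ZMod 3 → V} (hφ : Function.Injective φ) :
    Function.Injective (fun x : Fin m × ZMod 3 => tri φ x.1 x.2) := by
  rintro ⟨j, k⟩ ⟨j', k'⟩ h
  simp only [tri, Sym2.eq_iff] at h
  rcases h with ⟨h1, _⟩ | ⟨h1, h2⟩
  · have h3 := hφ h1
    rw [Prod.mk.injEq] at h3 ⊢
    exact ⟨h3.1, add_right_cancel h3.2⟩
  · exfalso
    have h3 := (Prod.mk.injEq _ _ _ _ ▸ hφ h1).2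
    have h4 := (Prod.mk.injEq _ _ _ _ ▸ hφ h2).2
    have key : ∀ a b : ZMod 3, a + 1 = b + 2 → a + 2 = b + 1 → False := by decide
    exact key k k' h3 h4

end Pool.Agent.ESz
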