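import Pool.Agent.ESz.Defs

/-!
# Counting, part A: one fixed chain pattern

Fix `k` and `J` (all `J s l` different). Claim: the number of pairs of permutations
`σ : Bool → Perm (Fin m)` with `Loop nxt σ k J`, times `(q!)^|ι|`, is at most `(m!)^2`.

Proof. The map `(σ, π) ↦ σ'` from {good `σ`} x (`ι → Perm (Fin q)`) to `Bool → Perm (Fin m)`,
where `σ' b` is `σ b` composed with the permutation of `Fin m` which sends `J s l` to
`J (π l s) l` for all `s` and all `l` with `b = !k l`, and fixes everything else, is injective:
on the nodes `(k l, J · l)` (which are not touched, as `k l ≠ !k l`) `σ` can be read off from `σ'`;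
by the Loop condition this gives the order type of `s ↦ σ (!k l') (J s l')` for `l' = nxt l`
(every `l'` is of this form); `σ'` gives the set of values of this function (the range of an
injective function together with its order type determines the function: count the smaller
elements), hence `σ` on the touched nodes, then `π`, and everything else is untouched.
-/

set_option autoImplicit false

namespace Pool.Agent.ESz

/-- A permutation preserving the order of an injective function is the identity. -/
private theorem perm_eq_self {q m : ℕ} (g : Fin q → Fin m) (hg : Function.Injective g)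
    (p : Equiv.Perm (Fin q)) (hp : ∀ s t, g (p s) < g (p t) ↔ g s < g t) (s : Fin q) :
    p s = s := by
  induction hn : (g s).val using Nat.strong_induction_on generalizing s with
  | _ n ih =>
    subst hn
    rcases lt_trichotomy (g (p s)) (g s) with h | h | h
    · have h1 : p (p s) = p s := ih _ h (p s) rfl
      exact p.injective h1
    · exact hg h
    · have h1 : g (p (p.symm s)) < g (p s) := by
        rw [Equiv.apply_symm_apply]
        exact h
      have h2 : g (p.symm s) < g s := (hp _ _).mp h1
      have h3 : p (p.symm s) = p.symm s := ih _ h2 (p.symm s) rfl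
      rw [Equiv.apply_symm_apply] at h3
      have h4 : p s = p (p.symm s) := congrArg p h3
      rw [Equiv.apply_symm_apply] at h4
      exact h4

/-- The permutation of `Fin m` which acts as `π l` on the `J · l` with `b = !k l`. -/
private noncomputable def tau {ι : Type} {m q : ℕ} (k : ι → Bool) (J : Fin q → ι → Fin m)
    (hJ : Function.Injective (fun x : Fin q × ι => J x.1 x.2)) (π : ι → Equiv.Perm (Fin q))
    (b : Bool) : Equiv.Perm (Fin m) :=
  Equiv.Perm.viaEmbedding
    (Equiv.prodCongrLeft (fun l : ι => if b = !k l then π l else (1 : Equiv.Perm (Fin q))))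
    ⟨fun x : Fin q × ι => J x.1 x.2, hJ⟩

private theorem tau_apply {ι : Type} {m q : ℕ} (k : ι → Bool) (J : Fin q → ι → Fin m)
    (hJ : Function.Injective (fun x : Fin q × ι => J x.1 x.2)) (π : ι → Equiv.Perm (Fin q))
    (b : Bool) (s : Fin q) (l : ι) :
    tau k J hJ π b (J s l) = J ((if b = !k l then π l else (1 : Equiv.Perm (Fin q))) s) l := by
  have h := Equiv.Perm.viaEmbedding_apply
    (Equiv.prodCongrLeft (fun l : ι => if b = !k l then π l else (1 : Equiv.Perm (Fin q))))
    ⟨fun x : Fin q × ι => J x.1 x.2, hJ⟩ (s, l)
  exact h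

open Classical in
/-- Number of pairs of permutations for which a fixed family is a `Loop`. -/
theorem count_fixed {ι : Type} [Fintype ι] {m q : ℕ} (nxt : Equiv.Perm ι) (k : ι → Bool)
    (J : Fin q → ι → Fin m) :
    (Finset.univ.filter (fun σ : Bool → Equiv.Perm (Fin m) => Loop nxt σ k J)).card *
      (q.factorial) ^ (Fintype.card ι) ≤ (m.factorial) ^ 2 := by
  by_cases hJ : Function.Injective (fun x : Fin q × ι => J x.1 x.2)
  swap
  · have h0 : Finset.univ.filter
        (fun σ : Bool → Equiv.Perm (Fin m) => Loop nxt σ k J) = ∅ := by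
      rw [Finset.filter_eq_empty_iff]
      intro σ _ hσ
      exact hJ hσ.1
    rw [h0]
    simp
  have hX : Fintype.card (Bool → Equiv.Perm (Fin m)) = (m.factorial) ^ 2 := by
    simp [Fintype.card_perm]
  have hG : Fintype.card (ι → Equiv.Perm (Fin q)) = (q.factorial) ^ (Fintype.card ι) := by
    simp [Fintype.card_perm]
  rw [← hX, ← hG]
  have hprod : ((Finset.univ.filter
      (fun σ : Bool → Equiv.Perm (Fin m) => Loop nxt σ k J)) ×ˢ
      (Finset.univ : Finset (ι → Equiv.Perm (Fin q)))).card =
      (Finset.univ.filter
        (fun σ : Bool → Equiv.Perm (Fin m) => Loop nxt σ k J)).card *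
        Fintype.card (ι → Equiv.Perm (Fin q)) := by
    rw [Finset.card_product, Finset.card_univ]
  rw [← hprod, ← Finset.card_univ]
  refine Finset.card_le_card_of_injOn
    (fun x b => (tau k J hJ x.2 b).trans (x.1 b)) (fun _ _ => Finset.mem_univ _) ?_
  rintro ⟨σ, π⟩ h1 ⟨σ₂, π₂⟩ h2 heq
  have hσ : Loop nxt σ k J := by
    simpa using h1
  have hσ₂ : Loop nxt σ₂ k J := by
    simpa using h2
  have heq' : ∀ (b : Bool) (x : Fin m),
      σ b (tau k J hJ π b x) = σ₂ b (tau k J hJ π₂ b x) := by
    intro b x
    have := congrFun heq b
    exact congrArg (fun e : Equiv.Perm (Fin m) => e x) this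
  have hk : ∀ (s : Fin q) (l : ι), σ (k l) (J s l) = σ₂ (k l) (J s l) := by
    intro s l
    have h := heq' (k l) (J s l)
    rw [tau_apply, tau_apply] at h
    simpa using h
  have hnk : ∀ (s : Fin q) (l : ι), σ (!k l) (J (π l s) l) = σ₂ (!k l) (J (π₂ l s) l) := by
    intro s l
    have h := heq' (!k l) (J s l)
    rw [tau_apply, tau_apply] at h
    simpa using h
  have hπ : π = π₂ := by
    funext l'
    obtain ⟨l, rfl⟩ : ∃ l, nxt l = l' := ⟨nxt.symm l', by simp⟩
    have hp := perm_eq_self (fun s => σ (!k (nxt l)) (J s (nxt l)))
      (by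
        intro s t hst
        have h3 := (σ (!k (nxt l))).injective hst
        have h4 := @hJ (s, nxt l) (t, nxt l) h3
        exact congrArg Prod.fst h4)
      ((π₂ (nxt l)).symm.trans (π (nxt l)))
      (by
        intro s t
        have e1 := hnk ((π₂ (nxt l)).symm s) (nxt l)
        have e2 := hnk ((π₂ (nxt l)).symm t) (nxt l)
        rw [Equiv.apply_symm_apply] at e1 e2
        simp only [Equiv.trans_apply]
        rw [e1, e2, ← hσ₂.2 l s t, ← hk, ← hk, hσ.2 l s t])
    apply Equiv.ext
    intro s
    have h5 := hp (π₂ (nxt l) s)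
    simpa using h5
  subst hπ
  have hσσ : σ = σ₂ := by
    funext b
    apply Equiv.ext
    intro x
    have h := heq' b ((tau k J hJ π b).symm x)
    rwa [Equiv.apply_symm_apply] at h
  rw [hσσ]

end Pool.Agent.ESz
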