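import Pool.Agent.ESz.CountA

/-!
# Counting, part B: all chain patterns

Number of `σ` for which some `(k, J)` is a Loop, times `(q!)^(|ι|+1)`, is at most
`2^|ι| * m^(q |ι|) * (m!)^2`.

Proof. If `(k, J)` is a Loop for `σ` then so is `(k, J ∘ π)` (i.e. `s ↦ J (π s)`) for every
`π : Perm (Fin q)`, and these are different for different `π` (as `ι` is nonempty and `J` is
injective), so every bad `σ` has at least `q!` pairs `(k, J)`. Double count the pairs
`(σ, (k, J))`: there are `2^|ι|` functions `k` and `m^(q |ι|)` functions `J`, and for each of them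
`count_fixed` bounds the number of `σ`.
-/

set_option autoImplicit false

namespace Pool.Agent.ESz

private theorem cb_perm {ι : Type} {m q : ℕ} {nxt : Equiv.Perm ι} {σ : Bool → Equiv.Perm (Fin m)}
    {k : ι → Bool} {J : Fin q → ι → Fin m} (h : Loop nxt σ k J) (π : Equiv.Perm (Fin q)) :
    Loop nxt σ k (fun s => J (π s)) := by
  refine ⟨?_, fun l s t => h.2 l (π s) (π t)⟩
  rintro ⟨s, l⟩ ⟨t, l'⟩ he
  have h1 : ((π s, l) : Fin q × ι) = (π t, l') := h.1 he
  rw [Prod.mk.injEq] at h1
  exact Prod.ext (π.injective h1.1) h1.2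

open Classical in
private theorem cb_card {ι : Type} [Fintype ι] [Nonempty ι] {m q : ℕ} {nxt : Equiv.Perm ι}
    {σ : Bool → Equiv.Perm (Fin m)} {k : ι → Bool} {J : Fin q → ι → Fin m}
    (h : Loop nxt σ k J) :
    q.factorial ≤ (Finset.univ.filter (fun p : (ι → Bool) × (Fin q → ι → Fin m) =>
      Loop nxt σ p.1 p.2)).card := by
  have h1 : (Finset.univ : Finset (Equiv.Perm (Fin q))).card = q.factorial := by
    rw [Finset.card_univ, Fintype.card_perm, Fintype.card_fin]
  rw [← h1]
  refine Finset.card_le_card_of_injOn (fun π => (k, fun s => J (π s))) (fun π _ => ?_) ?_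
  · rw [Finset.mem_coe, Finset.mem_filter]
    exact ⟨Finset.mem_univ _, cb_perm h π⟩
  · intro π _ π' _ he
    have h2 : (fun s => J (π s)) = fun s => J (π' s) := (Prod.mk.inj he).2
    refine Equiv.ext fun s => ?_
    obtain ⟨l⟩ := ‹Nonempty ι›
    have h3 : J (π s) l = J (π' s) l := congrFun (congrFun h2 s) l
    have h4 : ((π s, l) : Fin q × ι) = (π' s, l) := h.1 h3
    exact (Prod.mk.inj h4).1

open Classical in
/-- Number of bad pairs of permutations. -/
theorem count_all {ι : Type} [Fintype ι] [Nonempty ι] {m q : ℕ} (nxt : Equiv.Perm ι) :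
    (Finset.univ.filter (fun σ : Bool → Equiv.Perm (Fin m) =>
        ∃ (k : ι → Bool) (J : Fin q → ι → Fin m), Loop nxt σ k J)).card *
      (q.factorial) ^ (Fintype.card ι + 1) ≤
    2 ^ (Fintype.card ι) * m ^ (q * Fintype.card ι) * (m.factorial) ^ 2 := by
  set S := Finset.univ.filter (fun σ : Bool → Equiv.Perm (Fin m) =>
        ∃ (k : ι → Bool) (J : Fin q → ι → Fin m), Loop nxt σ k J) with hS
  have h1 : ∀ σ ∈ S, q.factorial ≤
      (Finset.univ.filter (fun p : (ι → Bool) × (Fin q → ι → Fin m) =>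
        Loop nxt σ p.1 p.2)).card := by
    intro σ hσ
    obtain ⟨k, J, h⟩ := (Finset.mem_filter.1 hσ).2
    exact cb_card h
  have h2 : S.card * q.factorial ≤ ∑ p : (ι → Bool) × (Fin q → ι → Fin m),
      (Finset.univ.filter (fun σ : Bool → Equiv.Perm (Fin m) => Loop nxt σ p.1 p.2)).card := by
    calc S.card * q.factorial = ∑ _σ ∈ S, q.factorial := by rw [Finset.sum_const, smul_eq_mul]
      _ ≤ ∑ σ ∈ S, (Finset.univ.filter (fun p : (ι → Bool) × (Fin q → ι → Fin m) =>
        Loop nxt σ p.1 p.2)).card := Finset.sum_le_sum h1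
      _ ≤ ∑ σ, (Finset.univ.filter (fun p : (ι → Bool) × (Fin q → ι → Fin m) =>
        Loop nxt σ p.1 p.2)).card := Finset.sum_le_sum_of_subset (Finset.subset_univ _)
      _ = _ := by
        simp only [Finset.card_filter]
        rw [Finset.sum_comm]
  calc S.card * q.factorial ^ (Fintype.card ι + 1)
      = (S.card * q.factorial) * q.factorial ^ (Fintype.card ι) := by ring
    _ ≤ (∑ p : (ι → Bool) × (Fin q → ι → Fin m),
      (Finset.univ.filter (fun σ : Bool → Equiv.Perm (Fin m) => Loop nxt σ p.1 p.2)).card) *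
        q.factorial ^ (Fintype.card ι) := Nat.mul_le_mul_right _ h2
    _ = ∑ p : (ι → Bool) × (Fin q → ι → Fin m),
      (Finset.univ.filter (fun σ : Bool → Equiv.Perm (Fin m) => Loop nxt σ p.1 p.2)).card *
        q.factorial ^ (Fintype.card ι) := Finset.sum_mul _ _ _
    _ ≤ ∑ _p : (ι → Bool) × (Fin q → ι → Fin m), m.factorial ^ 2 :=
      Finset.sum_le_sum fun p _ => count_fixed nxt p.1 p.2
    _ = _ := by
      rw [Finset.sum_const, smul_eq_mul, Finset.card_univ, Fintype.card_prod, Fintype.card_fun,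
        Fintype.card_fun, Fintype.card_fun, Fintype.card_bool, Fintype.card_fin, Fintype.card_fin,
        ← pow_mul, mul_comm (Fintype.card ι) q]

end Pool.Agent.ESz
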