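import Mathlib

/-!
# Edge-ordered size-Ramsey numbers: definitions

`H` is the disjoint union of `m` triangles with vertices `(j, 0), (j, 1), (j, 2)`, `j < m`.
The edge `(j, k)` (opposite to the vertex `(j, k)`) has rank `k * m + σ k j`, where
`σ 0, σ 1, σ 2` are three permutations of `Fin m`.
-/

set_option autoImplicit false

namespace Pool.Agent.ESz

/-- `q` disjoint closed chains of the type `k` (with the cyclic successor `nxt` on `ι`):
all `J s l` are different, and for every `l` the order of the `σ (k l) (J s l)`, `s < q`, is the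
order of the `σ (!k (nxt l)) (J s (nxt l))`. -/
def Loop {ι : Type} {m q : ℕ} (nxt : Equiv.Perm ι) (σ : Bool → Equiv.Perm (Fin m))
    (k : ι → Bool) (J : Fin q → ι → Fin m) : Prop :=
  Function.Injective (fun x : Fin q × ι => J x.1 x.2) ∧
    ∀ (l : ι) (s t : Fin q),
      (σ (k l) (J s l) < σ (k l) (J t l) ↔
        σ (!k (nxt l)) (J s (nxt l)) < σ (!k (nxt l)) (J t (nxt l)))

/-- The two blocks of edges at the vertex class `i`: the blocks `i + 1` and `i + 2`. -/
def blk (i : ZMod 3) (b : Bool) : ZMod 3 := if b then i + 1 else i + 2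

/-- The rigidity property of three permutations with threshold `q`. -/
def Rigid {m : ℕ} (q : ℕ) (σ : ZMod 3 → Equiv.Perm (Fin m)) : Prop :=
  ∀ (i : ZMod 3) (p : ℕ), p ∈ Finset.Icc 2 6 → ∀ (k : Fin p → Bool) (J : Fin q → Fin p → Fin m),
    ¬ Loop (finRotate p) (fun b => σ (blk i b)) k J

/-- The image of the edge `(j, k)` of the triangles under the vertex map `φ`. -/
def tri {V : Type} {m : ℕ} (φ : Fin m × ZMod 3 → V) (j : Fin m) (k : ZMod 3) : Sym2 V :=
  s(φ (j, k + 1), φ (j, k + 2))

/-- `φ` is a copy of the triangles inside the edge set `E` of the host, and the host order `f`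
agrees with the order of `σ k` on every block `k`. -/
structure IsCopy {V : Type} {m : ℕ} (σ : ZMod 3 → Equiv.Perm (Fin m)) (E : Finset (Sym2 V))
    (f : Sym2 V → ℕ) (φ : Fin m × ZMod 3 → V) : Prop where
  /-- vertices go to different vertices -/
  inj : Function.Injective φ
  /-- edges go to edges of the host -/
  mem : ∀ (j : Fin m) (k : ZMod 3), tri φ j k ∈ E
  /-- the order inside every block is respected -/
  mono : ∀ (k : ZMod 3) (j j' : Fin m), σ k j < σ k j' ↔ f (tri φ j k) < f (tri φ j' k)

/-- The placements `(x, j)` of the vertices `(j, i)` of class `i` in the copies of `Φ`. -/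
noncomputable def place {V : Type} [DecidableEq V] {m : ℕ}
    (Φ : Finset (Fin m × ZMod 3 → V)) (i : ZMod 3) : Finset (V × Fin m) :=
  (Φ ×ˢ (Finset.univ : Finset (Fin m))).image (fun x => (x.1 (x.2, i), x.2))

end Pool.Agent.ESz
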