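import Mathlib

/-!
# The factorial estimate

If `12^7 m^6 ≤ q^7`, `q ≤ 3 m`, `1 ≤ q` then `15 * 2^p * m^(q p) < (q!)^(p+1)` for `2 ≤ p ≤ 6`.

Proof. `q^q ≤ 3^q q!` (from `q^q / q! ≤ exp q ≤ 3^q`, e.g. `Real.pow_div_factorial_le_exp`), so
`q^(q(p+1)) ≤ 3^(q(p+1)) (q!)^(p+1)`. Next `q^(p+1) (3m)^(6-p) ≥ q^7 ≥ 12^7 m^6`, so
`q^(p+1) ≥ 4^7 3^(p+1) m^p` (cancel `3^(6-p) m^(6-p)`; `m ≥ 1` because `q ≥ 1`). Taking `q`-th
powers `q^(q(p+1)) ≥ 4^(7q) 3^(q(p+1)) m^(pq)`, so `(q!)^(p+1) ≥ 4^(7q) m^(pq) > 15*2^p m^(pq)`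
since `4^7 = 16384 > 960 ≥ 15 * 2^p` and `q ≥ 1`.
-/

set_option autoImplicit false

namespace Pool.Agent.ESz

private lemma pow_le_fact (q : ℕ) : q ^ q ≤ 3 ^ q * q.factorial := by
  have h1 : (q : ℝ) ^ q / (q.factorial : ℝ) ≤ Real.exp q :=
    Real.pow_div_factorial_le_exp (q : ℝ) (Nat.cast_nonneg q) q
  have h2 : Real.exp q ≤ 3 ^ q := by
    have h3 : Real.exp (q : ℝ) = Real.exp 1 ^ q := by
      rw [← Real.exp_nat_mul, mul_one]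
    rw [h3]
    apply pow_le_pow_left₀ (Real.exp_pos 1).le
    have := Real.exp_one_lt_d9
    linarith
  have h4 : (0 : ℝ) < (q.factorial : ℝ) := by exact_mod_cast Nat.factorial_pos q
  rw [div_le_iff₀ h4] at h1
  have h5 : (q : ℝ) ^ q ≤ 3 ^ q * (q.factorial : ℝ) :=
    h1.trans (mul_le_mul_of_nonneg_right h2 h4.le)
  exact_mod_cast h5

/-- The factorial estimate. -/
theorem fact_estimate {m q : ℕ} (hq1 : 12 ^ 7 * m ^ 6 ≤ q ^ 7) (hq2 : q ≤ 3 * m) (hq3 : 1 ≤ q)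
    {p : ℕ} (hp : p ∈ Finset.Icc 2 6) :
    15 * 2 ^ p * m ^ (q * p) < (q.factorial) ^ (p + 1) := by
  rw [Finset.mem_Icc] at hp
  have hm : 1 ≤ m := by omega
  have step2 : 4 ^ 7 * 3 ^ (p + 1) * m ^ p ≤ q ^ (p + 1) := by
    have hpos : 0 < (3 * m) ^ (6 - p) := by positivity
    apply Nat.le_of_mul_le_mul_right _ hpos
    have h1 : 4 ^ 7 * 3 ^ (p + 1) * m ^ p * (3 * m) ^ (6 - p) = 12 ^ 7 * m ^ 6 := by
      have h2 : m ^ 6 = m ^ p * m ^ (6 - p) := by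
        rw [← pow_add]
        congr 1
        omega
      have h3 : (3 : ℕ) ^ 7 = 3 ^ (p + 1) * 3 ^ (6 - p) := by
        rw [← pow_add]
        congr 1
        omega
      have h4 : (12 : ℕ) ^ 7 = 4 ^ 7 * 3 ^ 7 := by norm_num
      rw [h4, h2, h3, mul_pow]
      ring
    have h5 : q ^ 7 = q ^ (p + 1) * q ^ (6 - p) := by
      rw [← pow_add]
      congr 1
      omega
    rw [h1]
    calc 12 ^ 7 * m ^ 6 ≤ q ^ 7 := hq1
      _ = q ^ (p + 1) * q ^ (6 - p) := h5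
      _ ≤ q ^ (p + 1) * (3 * m) ^ (6 - p) := Nat.mul_le_mul_left _ (Nat.pow_le_pow_left hq2 _)
  have step3 : 4 ^ (7 * q) * m ^ (q * p) ≤ q.factorial ^ (p + 1) := by
    have hpos : 0 < 3 ^ (q * (p + 1)) := by positivity
    apply Nat.le_of_mul_le_mul_left _ hpos
    calc 3 ^ (q * (p + 1)) * (4 ^ (7 * q) * m ^ (q * p))
        = (4 ^ 7 * 3 ^ (p + 1) * m ^ p) ^ q := by
          rw [mul_pow, mul_pow, ← pow_mul, ← pow_mul, ← pow_mul, Nat.mul_comm q (p + 1),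
            Nat.mul_comm q p]
          ring
      _ ≤ (q ^ (p + 1)) ^ q := Nat.pow_le_pow_left step2 q
      _ = (q ^ q) ^ (p + 1) := by rw [← pow_mul, ← pow_mul, Nat.mul_comm]
      _ ≤ (3 ^ q * q.factorial) ^ (p + 1) := Nat.pow_le_pow_left (pow_le_fact q) _
      _ = 3 ^ (q * (p + 1)) * q.factorial ^ (p + 1) := by rw [mul_pow, ← pow_mul]
  have h6 : 15 * 2 ^ p < 4 ^ (7 * q) := by
    have h7 : 2 ^ p ≤ 2 ^ 6 := Nat.pow_le_pow_right (by norm_num) hp.2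
    have h8 : 4 ^ (7 * 1) ≤ 4 ^ (7 * q) := Nat.pow_le_pow_right (by norm_num) (by omega)
    norm_num at h7 h8
    omega
  have h9 : 0 < m ^ (q * p) := by positivity
  calc 15 * 2 ^ p * m ^ (q * p) < 4 ^ (7 * q) * m ^ (q * p) := Nat.mul_lt_mul_of_pos_right h6 h9
    _ ≤ q.factorial ^ (p + 1) := step3

end Pool.Agent.ESz
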