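import Mathlib

/-!
# Packing and covering

If there are no `q` members of the family `Cl` with all values different, then a set of at most
`|ι| q` elements meets every member. Proof: take a maximal number `s < q` of members
`J 0, .., J (s-1)` with all values different (as a function `Fin s → ι → Fin m`; `s = 0` is
possible, use `Nat.findGreatest` or strong induction), `Bad` = the set of all their values. A
member which avoids `Bad` could be added (it is injective by `hinj`).
-/

set_option autoImplicit false

namespace Pool.Agent.ESz

/-- Packing and covering. -/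
theorem packing {ι : Type} [Fintype ι] {m q : ℕ} (Cl : (ι → Fin m) → Prop)
    (hinj : ∀ J, Cl J → Function.Injective J)
    (hno : ¬ ∃ J : Fin q → ι → Fin m,
      Function.Injective (fun x : Fin q × ι => J x.1 x.2) ∧ ∀ s, Cl (J s)) :
    ∃ Bad : Finset (Fin m), Bad.card ≤ Fintype.card ι * q ∧ ∀ J, Cl J → ∃ l, J l ∈ Bad := by
  classical
  let Q : ℕ → Prop := fun n => ∃ J : Fin n → ι → Fin m,
    Function.Injective (fun x : Fin n × ι => J x.1 x.2) ∧ ∀ s, Cl (J s)
  have h0 : Q 0 := ⟨fun i => i.elim0, fun x => x.1.elim0, fun s => s.elim0⟩
  have hs : ∃ s, s < q ∧ Q s ∧ ¬ Q (s + 1) := by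
    by_contra hcon
    have h1 : ∀ n, n ≤ q → Q n := by
      intro n
      induction n with
      | zero => exact fun _ => h0
      | succ n ih =>
        intro hn
        by_contra h2
        exact hcon ⟨n, by omega, ih (by omega), h2⟩
    exact hno (h1 q le_rfl)
  obtain ⟨s, hsq, ⟨J, hJ1, hJ2⟩, hs1⟩ := hs
  refine ⟨Finset.univ.image (fun x : Fin s × ι => J x.1 x.2), ?_, ?_⟩
  · refine Finset.card_image_le.trans ?_
    rw [Finset.card_univ, Fintype.card_prod, Fintype.card_fin, Nat.mul_comm]
    exact Nat.mul_le_mul_left _ hsq.le
  · intro J' hJ'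
    by_contra hcon
    push Not at hcon
    have hbad : ∀ i l l', J' l ≠ J i l' := by
      intro i l l' h1
      apply hcon l
      rw [h1]
      exact Finset.mem_image.2 ⟨(i, l'), Finset.mem_univ _, rfl⟩
    apply hs1
    let K : Fin (s + 1) → ι → Fin m := Fin.cons J' J
    have hK0 : K 0 = J' := Fin.cons_zero _ _
    have hK1 : ∀ i, K (Fin.succ i) = J i := fun i => Fin.cons_succ _ _ _
    refine ⟨K, ?_, ?_⟩
    · rintro ⟨i, l⟩ ⟨i', l'⟩ heq
      have heq' : K i l = K i' l' := heq
      induction i using Fin.cases with
      | zero =>
        induction i' using Fin.cases with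
        | zero =>
          rw [hK0] at heq'
          rw [hinj J' hJ' heq']
        | succ i' =>
          rw [hK0, hK1] at heq'
          exact absurd heq' (hbad _ _ _)
      | succ i =>
        induction i' using Fin.cases with
        | zero =>
          rw [hK0, hK1] at heq'
          exact absurd heq'.symm (hbad _ _ _)
        | succ i' =>
          rw [hK1, hK1] at heq'
          have h1 := hJ1 (a₁ := (i, l)) (a₂ := (i', l')) heq'
          rw [Prod.mk.injEq] at h1
          rw [h1.1, h1.2]
    · intro i
      induction i using Fin.cases with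
      | zero =>
        rw [hK0]
        exact hJ'
      | succ i =>
        rw [hK1]
        exact hJ2 i

end Pool.Agent.ESz
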