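import Pool.Agent.ESz.Walk

/-!
# Shortest closed walks are simple

If there is a closed non-backtracking walk of length `p0` then there is one of length
`2 ≤ p ≤ p0` whose `p` underlying edges are different; in cyclic form:
`e : Fin p → S` injective, `k : Fin p → Bool`, and the end `k l` of `e l` is the end
`!k (l+1)` of `e (l+1)` (with `finRotate p`).

Proof. Take `p` minimal such that there is a closed walk `c` of length `p`. `p ≥ 2` since
`Nb a a` is false. Suppose `c i` and `c j` have the same underlying edge, `i < j < i + p`.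
(1) `c i = c j`: then `n ↦ c (i + n % (j - i))` is a closed walk of length `j - i < p`.
(2) `c j = rv (c i)`. LOLLIPOP LEMMA: if `a 0, .., a n` is a walk (`n ≥ 1`) with `a n = rv (a 0)`
then there is a closed walk of length at most `n - 1` and at least `1`. Strong induction on `n`.
`n = 1` is impossible (`Nb` needs different edges); for `n = 2` the edge `a 1` would have equal
ends; let `n ≥ 3`. The head of `a (n-1)` is the tail of `rv (a 0)`, i.e. the head of `a 0`,
i.e. the tail of `a 1`. If the edges of `a (n-1)` and `a 1` differ then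
`a 1, .., a (n-1)` is a closed walk of length `n - 1`. Otherwise `a (n-1) = a 1` is impossible
(equal head and tail), so `a (n-1) = rv (a 1)` and we apply the induction hypothesis to
`a 1, .., a (n-1)` (length `n - 2`).
So in case (2) there is a closed walk of length at most `j - i - 1 < p`. Contradiction.
Finally `e l = (c l).1`, `k l = (c l).2` for `l < p`, and `finRotate p l` has value
`(l + 1) % p`.
-/

set_option autoImplicit false

namespace Pool.Agent.ESz

private theorem closed_of_cyc {S W : Type} (fin : Bool → S → W) (E : Finset S)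
    (m : ℕ) (b : ℕ → S × Bool) (hb : ∀ n < m, Nb fin E (b n) (b (n + 1)))
    (hl : Nb fin E (b m) (b 0)) :
    Closed fin E (m + 1) (fun n => b (n % (m + 1))) := by
  refine ⟨by omega, ?_, ?_⟩
  · intro n
    have h1 : n % (m + 1) < m + 1 := Nat.mod_lt _ (by omega)
    show Nb fin E (b (n % (m + 1))) (b ((n + 1) % (m + 1)))
    by_cases h : n % (m + 1) = m
    · have h2 : (n + 1) % (m + 1) = 0 := by
        rw [Nat.add_mod, h]
        rcases Nat.eq_zero_or_pos m with h0 | h0
        · subst h0
          simp
        · rw [Nat.mod_eq_of_lt (show 1 < m + 1 by omega), Nat.mod_self]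
      rw [h, h2]
      exact hl
    · have h2 : (n + 1) % (m + 1) = n % (m + 1) + 1 := by
        rw [Nat.add_mod]
        have h0 : 0 < m := by omega
        rw [Nat.mod_eq_of_lt (show 1 < m + 1 by omega), Nat.mod_eq_of_lt (by omega)]
      rw [h2]
      exact hb _ (by omega)
  · intro n
    show b ((n + (m + 1)) % (m + 1)) = b (n % (m + 1))
    rw [Nat.add_mod_right]

private theorem lollipop {S W : Type} (fin : Bool → S → W) (E : Finset S)
    (hne : ∀ e ∈ E, fin true e ≠ fin false e) (n : ℕ) :
    ∀ a : ℕ → S × Bool, 1 ≤ n → (∀ k < n, Nb fin E (a k) (a (k + 1))) → a n = rv (a 0) →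
      ∃ p : ℕ, p + 1 ≤ n ∧ ∃ c : ℕ → S × Bool, Closed fin E p c := by
  induction n using Nat.strong_induction_on with
  | _ n ih =>
    intro a hn ha hr
    have hne' : ∀ x : S × Bool, x.1 ∈ E → fin x.2 x.1 ≠ fin (!x.2) x.1 := by
      intro x hx
      rcases x with ⟨e, b⟩
      cases b
      · exact fun h => hne e hx h.symm
      · exact hne e hx
    have hn1 : n ≠ 1 := by
      rintro rfl
      have h := ha 0 (by omega)
      rw [zero_add, hr] at h
      exact h.2.2.1 rfl
    obtain ⟨m, rfl⟩ : ∃ m, n = m + 2 := ⟨n - 2, by omega⟩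
    have h0 := ha 0 (by omega)
    have h1 := ha (m + 1) (by omega)
    rw [zero_add] at h0
    rw [show m + 1 + 1 = m + 2 by omega, hr] at h1
    -- head of `a (m+1)` is the tail of `a 1`
    have hht : fin (!(a 1).2) (a 1).1 = fin (a (m + 1)).2 (a (m + 1)).1 := by
      rw [h0.2.2.2, ← h1.2.2.2]
      simp [rv]
    have hm0 : m ≠ 0 := by
      rintro rfl
      exact hne' (a 1) h0.2.1 hht.symm
    by_cases he : (a (m + 1)).1 = (a 1).1
    · by_cases hb : (a (m + 1)).2 = (a 1).2
      · rw [he, hb] at hht
        exact absurd hht.symm (hne' (a 1) h0.2.1)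
      · obtain ⟨p, hp, c, hc⟩ := ih m (by omega) (fun k => a (k + 1)) (by omega)
          (fun k hk => ha (k + 1) (by omega)) (by
            show a (m + 1) = rv (a (0 + 1))
            rw [zero_add]
            refine Prod.ext he ?_
            show (a (m + 1)).2 = !(a 1).2
            cases h2 : (a (m + 1)).2 <;> cases h3 : (a 1).2 <;> simp_all)
        exact ⟨p, by omega, c, hc⟩
    · refine ⟨m + 1, by omega, _, closed_of_cyc fin E m (fun k => a (k + 1))
        (fun k hk => ha (k + 1) (by omega)) ?_⟩
      show Nb fin E (a (m + 1)) (a (0 + 1))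
      rw [zero_add]
      exact ⟨h1.1, h0.2.1, he, hht⟩

/-- Shortest closed walks are simple. -/
theorem exists_simple {S W : Type} (fin : Bool → S → W) (E : Finset S)
    (hne : ∀ e ∈ E, fin true e ≠ fin false e) {p₀ : ℕ} {c : ℕ → S × Bool}
    (hc : Closed fin E p₀ c) :
    ∃ p : ℕ, 2 ≤ p ∧ p ≤ p₀ ∧ ∃ (e : Fin p → S) (k : Fin p → Bool), Function.Injective e ∧
      (∀ l, e l ∈ E) ∧
      ∀ l, fin (k l) (e l) = fin (!k (finRotate p l)) (e (finRotate p l)) := by
  classical
  have hex : ∃ p : ℕ, ∃ c : ℕ → S × Bool, Closed fin E p c := ⟨p₀, c, hc⟩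
  obtain ⟨d, hd⟩ := Nat.find_spec hex
  have hmin : ∀ q, (∃ c : ℕ → S × Bool, Closed fin E q c) → Nat.find hex ≤ q :=
    fun q hq => Nat.find_min' hex hq
  have hple : Nat.find hex ≤ p₀ := hmin p₀ ⟨c, hc⟩
  generalize Nat.find hex = p at hd hmin hple
  obtain ⟨hp1, hnb, hper⟩ := hd
  have hp2 : 2 ≤ p := by
    by_contra h
    have h1 : p = 1 := by omega
    subst h1
    have h2 := hnb 0
    rw [hper 0] at h2
    exact h2.2.2.1 rfl
  have key : ∀ i j : ℕ, i < j → j < p → (d i).1 ≠ (d j).1 := by
    intro i j hij hj he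
    by_cases hb : (d i).2 = (d j).2
    · have hdd : d i = d j := Prod.ext he hb
      obtain ⟨m, rfl⟩ : ∃ m, j = i + (m + 1) := ⟨j - i - 1, by omega⟩
      have := hmin (m + 1) ⟨_, closed_of_cyc fin E m (fun n => d (i + n))
        (fun n _ => hnb (i + n)) (by
          show Nb fin E (d (i + m)) (d (i + 0))
          rw [add_zero, hdd]
          exact hnb (i + m))⟩
      omega
    · obtain ⟨m, rfl⟩ : ∃ m, j = i + m := ⟨j - i, by omega⟩
      obtain ⟨q, hq, c', hc'⟩ := lollipop fin E hne m (fun n => d (i + n)) (by omega)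
        (fun n _ => hnb (i + n)) (by
          show d (i + m) = rv (d (i + 0))
          rw [add_zero]
          refine Prod.ext he.symm ?_
          show (d (i + m)).2 = !(d i).2
          cases h2 : (d (i + m)).2 <;> cases h3 : (d i).2 <;> simp_all)
      have := hmin q ⟨c', hc'⟩
      omega
  refine ⟨p, hp2, hple, fun l => (d l).1, fun l => (d l).2, ?_, fun l => (hnb l).1, ?_⟩
  · intro i j hij
    by_contra hne2
    rcases lt_or_gt_of_ne (fun h => hne2 (Fin.ext h) : (i : ℕ) ≠ j) with h | h
    · exact key i j h j.2 hij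
    · exact key j i h i.2 hij.symm
  · intro l
    have hval : d ((finRotate p l : Fin p) : ℕ) = d ((l : ℕ) + 1) := by
      obtain ⟨q, rfl⟩ : ∃ q, p = q + 1 := ⟨p - 1, by omega⟩
      rw [finRotate_apply]
      by_cases h : (l : ℕ) = q
      · have hl : l = Fin.last q := Fin.ext h
        subst hl
        have h2 := hper 0
        rw [zero_add] at h2
        rw [Fin.last_add_one]
        exact h2.symm
      · rw [Fin.val_add_one_of_lt (Fin.lt_def.2 (by
          have := l.2
          show (l : ℕ) < q
          omega))]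
    show fin (d l).2 (d l).1 = fin (!(d (finRotate p l : Fin p)).2) (d (finRotate p l : Fin p)).1
    rw [hval]
    exact (hnb l).2.2.2.symm

end Pool.Agent.ESz
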