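import Pool.Agent.ESz.Walk

/-!
# Existence of short closed walks

`E` is a nonempty finite family of edges; every end of an edge of `E` is an end of at least
`D + 1` edges of `E`; the edges which can be reached from a given edge number at most `T`
(formally: `pt : S → V` is constant along adjacent edges and has fibres of size at most `T`), and
`2 T < D^4`. Then there is a closed non-backtracking walk of length at most `6`.

Proof. Fix `a0 = (e0, true)`. Every oriented edge `a` with `a.1 ∈ E` has at least `D` successors
for `Nb`: among the at least `D + 1` edges with an end at the head of `a` all but `a.1` itself give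
a successor. So there are at least `D^4` walks of length 4 starting at `a0` (e.g. define
recursively the finset of `n`-step walks as lists or as functions `Fin (n+1) → S × Bool`; or choose
for every `a` an injective map `Fin D → successors` and let the walks be indexed by
`Fin 4 → Fin D`: different index sequences give different walks). All last oriented edges lie in
(fibre of `pt e0`) x `Bool`, a set of at most `2 T < D^4` elements: two different walks have the
same last oriented edge. Apply `closed_of_two`.
-/

set_option autoImplicit false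

namespace Pool.Agent.ESz

/-- Injective choice of successors. -/
private lemma exists_succ {S W : Type} [DecidableEq S] [DecidableEq W]
    (E : Finset S) (fin : Bool → S → W) (D : ℕ)
    (hdeg : ∀ e ∈ E, ∀ b : Bool,
      D + 1 ≤ (E.filter (fun e' => fin true e' = fin b e ∨ fin false e' = fin b e)).card)
    (a : S × Bool) :
    ∃ s : Fin D → S × Bool, a.1 ∈ E → (∀ i, Nb fin E a (s i)) ∧ Function.Injective s := by
  classical
  by_cases ha : a.1 ∈ E
  · have h1 := hdeg a.1 ha a.2
    set F := E.filter (fun e' => fin true e' = fin a.2 a.1 ∨ fin false e' = fin a.2 a.1) with hF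
    have h2 : D ≤ (F.erase a.1).card := by
      have := Finset.pred_card_le_card_erase (s := F) (a := a.1)
      omega
    have h3 : Fintype.card (Fin D) ≤ Fintype.card ↥(F.erase a.1) := by
      rw [Fintype.card_fin, Fintype.card_coe]
      exact h2
    obtain ⟨j⟩ := Function.Embedding.nonempty_of_card_le h3
    refine ⟨fun i => ((j i : S), !decide (fin true (j i : S) = fin a.2 a.1)), fun _ => ⟨?_, ?_⟩⟩
    · intro i
      have h4 := Finset.mem_erase.1 (j i).2
      have h40 := Finset.mem_filter.1 h4.2
      refine ⟨ha, h40.1, fun h => h4.1 h.symm, ?_⟩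
      by_cases h5 : fin true (j i : S) = fin a.2 a.1
      · simp [h5]
      · rcases h40.2 with h6 | h6
        · exact absurd h6 h5
        · simp [h5, h6]
    · intro i i' h
      have h4 : (j i : S) = j i' := congrArg Prod.fst h
      exact j.injective (Subtype.ext h4)
  · exact ⟨fun _ => a, fun h => absurd h ha⟩

/-- The walk of length `4` with given indices. -/
private def wk {A : Type} {D : ℕ} (s : A → Fin D → A) (a : A) (l : Fin 4 → Fin D) : ℕ → A
  | 0 => a
  | n + 1 => if h : n < 4 then s (wk s a l n) (l ⟨n, h⟩) else wk s a l n

/-- Short closed walks exist. -/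
theorem exists_closed {S W V : Type} [DecidableEq S] [DecidableEq W] [DecidableEq V]
    (E : Finset S) (fin : Bool → S → W) (pt : S → V) (hne : ∀ e ∈ E, fin true e ≠ fin false e)
    (hpt : ∀ e ∈ E, ∀ e' ∈ E, ∀ b b', fin b e = fin b' e' → pt e = pt e') (D T : ℕ)
    (hT : ∀ v, (E.filter (fun e => pt e = v)).card ≤ T) (hD : 2 * T < D ^ 4)
    (hE : E.Nonempty)
    (hdeg : ∀ e ∈ E, ∀ b : Bool,
      D + 1 ≤ (E.filter (fun e' => fin true e' = fin b e ∨ fin false e' = fin b e)).card) :
    ∃ p ≤ 6, ∃ c : ℕ → S × Bool, Closed fin E p c := by
  classical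
  obtain ⟨e0, he0⟩ := hE
  choose s hs using exists_succ E fin D hdeg
  set w := wk s (e0, true) with hw
  have w0 : ∀ l, w l 0 = (e0, true) := fun l => rfl
  have w1 : ∀ l n (h : n < 4), w l (n + 1) = s (w l n) (l ⟨n, h⟩) := by
    intro l n h
    show wk s (e0, true) l (n + 1) = _
    rw [wk, dif_pos h]
  have hm : ∀ l n, n ≤ 4 → (w l n).1 ∈ E ∧ pt (w l n).1 = pt e0 := by
    intro l n
    induction n with
    | zero => intro _; rw [w0]; exact ⟨he0, rfl⟩
    | succ n ih =>
      intro hn
      have h1 := ih (by omega)
      have h2 := (hs (w l n) h1.1).1 (l ⟨n, by omega⟩)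
      rw [← w1 l n (by omega)] at h2
      refine ⟨h2.2.1, ?_⟩
      rw [← h1.2]
      exact hpt _ h2.2.1 _ h1.1 _ _ h2.2.2.2
  have hN : ∀ l, ∀ n < 4, Nb fin E (w l n) (w l (n + 1)) := by
    intro l n hn
    rw [w1 l n hn]
    exact (hs (w l n) (hm l n (by omega)).1).1 _
  have hcard : ((E.filter (fun e => pt e = pt e0)) ×ˢ (Finset.univ : Finset Bool)).card <
      (Finset.univ : Finset (Fin 4 → Fin D)).card := by
    rw [Finset.card_product, Finset.card_univ, Finset.card_univ, Fintype.card_bool,
      Fintype.card_fun, Fintype.card_fin, Fintype.card_fin]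
    have := hT (pt e0)
    omega
  obtain ⟨l, -, l', -, hne', heq⟩ := Finset.exists_ne_map_eq_of_card_lt_of_maps_to hcard
    (f := fun l => w l 4) (by
      intro l _
      have := hm l 4 le_rfl
      simp only [Finset.coe_product, Set.mem_prod, Finset.mem_coe, Finset.mem_filter,
        Finset.mem_univ, and_true]
      exact this)
  refine closed_of_two fin E hne (w l) (w l') (hN l) (hN l') (by rw [w0, w0]) heq ?_
  by_contra hcon
  push Not at hcon
  apply hne'
  funext i
  have h1 := hcon i.1 (by omega)
  have h2 := hcon (i.1 + 1) (by omega)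
  rw [w1 l i.1 i.2, w1 l' i.1 i.2, h1] at h2
  exact (hs (w l' i.1) (hm l' i.1 (by omega)).1).2 h2

end Pool.Agent.ESz
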