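import Pool.Agent.ESz.MinDeg
import Pool.Agent.ESz.WalkB
import Pool.Agent.ESz.Simple

/-!
# Short simple closed chains

Combination of `exists_minDeg`, `exists_closed`, `exists_simple`.
-/

set_option autoImplicit false

namespace Pool.Agent.ESz

/-- A family of edges with more than `D` times as many edges as vertices, in which every
component has at most `T < D^4 / 2` edges, contains a simple closed chain of length `2, .., 6`. -/
theorem short_loop {S W V : Type} [DecidableEq S] [DecidableEq W] [DecidableEq V]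
    (E : Finset S) (U : Finset W) (fin : Bool → S → W) (pt : S → V)
    (hU : ∀ b, ∀ e ∈ E, fin b e ∈ U) (hne : ∀ e ∈ E, fin true e ≠ fin false e)
    (hpt : ∀ e ∈ E, ∀ e' ∈ E, ∀ b b', fin b e = fin b' e' → pt e = pt e') (D T : ℕ)
    (hT : ∀ v, (E.filter (fun e => pt e = v)).card ≤ T) (hD : 2 * T < D ^ 4)
    (hE : D * U.card < E.card) :
    ∃ p ∈ Finset.Icc 2 6, ∃ (e : Fin p → S) (k : Fin p → Bool), Function.Injective e ∧
      (∀ l, e l ∈ E) ∧
      ∀ l, fin (k l) (e l) = fin (!k (finRotate p l)) (e (finRotate p l)) := by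
  obtain ⟨E', hE'E, hne', hdeg⟩ := exists_minDeg E U fin hU D hE
  have hsub : ∀ e ∈ E', e ∈ E := fun e he => hE'E he
  obtain ⟨p₀, hp₀, c, hc⟩ := exists_closed E' fin pt (fun e he => hne e (hsub e he))
    (fun e he e' he' => hpt e (hsub e he) e' (hsub e' he')) D T
    (fun v => le_trans (Finset.card_le_card (Finset.filter_subset_filter _ hE'E)) (hT v)) hD
    hne' hdeg
  obtain ⟨p, hp2, hpp, e, k, hinj, hmem, hcyc⟩ := exists_simple fin E'
    (fun e he => hne e (hsub e he)) hc
  exact ⟨p, Finset.mem_Icc.2 ⟨hp2, hpp.trans hp₀⟩, e, k, hinj, fun l => hsub _ (hmem l), hcyc⟩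

end Pool.Agent.ESz
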