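import Pool.Agent.ESz.Defs
import Pool.Agent.ESz.Pack
import Pool.Agent.ESz.Short

/-!
# The placement law

For a rigid `σ` and a set `Φ` of at most `T` copies inside `E`, the number of placements of the
vertices of class `i` is at most `2 D |E|` plus a small error.

Proof. We may assume `Φ` nonempty (so `T ≥ 1`). For every `(x, j) ∈ place Φ i` choose
`a (x, j) ∈ Φ` with `a (x, j) (j, i) = x`.
A TYPE is `(p, a, k)` with `2 ≤ p ≤ 6`, `a : Fin p → Φ`, `k : Fin p → Bool`; there are at most
`∑ p ∈ Icc 2 6, (2 T)^p ≤ 5 (2 T)^6` types. Let `Cl_(p,a,k) J` (for `J : Fin p → Fin m`) mean: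
`J` is injective and for all `l`
`tri (a l) (J l) (blk i (k l)) = tri (a l') (J l') (blk i (!k l'))` with `l' = finRotate p l`.
If `J : Fin q → Fin p → Fin m` is a family of members of `Cl_(p,a,k)` with all values different
then it is a `Loop (finRotate p) (fun b => σ (blk i b)) k J` by two applications of
`IsCopy.mono`; this contradicts `hσ`. By `packing` there is `Bad_(p,a,k)`, at most `p q ≤ 6 q`
elements, which meets all members of `Cl_(p,a,k)`. Let `Bad` be the union over all types,
`|Bad| ≤ 5 (2 T)^6 * (6 q)`.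
The placements `(x, j)` with `j ∈ Bad` number at most `|Φ| |Bad|` (`(x, j) ↦ (a (x, j), j)` is
injective). Let `S0` be the set of the other placements. Suppose `|S0| > D (2 |E|)`. Apply
`short_loop` with `S = V × Fin m`, `W = V × Sym2 V`, `E = S0`,
`U = {(x, g) : g ∈ E, x ∈ g}` (e.g. the union over `g ∈ E` of a set of at most two elements; for
the bound `2 |E|` note that `g = s(y, z)` gives only `(y, g), (z, g)`),
`fin b (x, j) = (x, tri (a (x, j)) j (blk i b))`, `pt (x, j) = x`:
* the end is in `U` by `IsCopy.mem` and because `x = a (x, j) (j, i)` is one of the two vertices of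
  the edges `blk i b` of triangle `j` (`i + 1 + 2 = i`, `i + 2 + 1 = i`);
* the two ends are different because `a (x, j)` is injective;
* on the fibre of `pt` over `x` the map `a` is injective (`a (x, j) = a (x, j')` gives
  `a (x, j) (j, i) = a (x, j) (j', i)`), so it has at most `|Φ| ≤ T` elements.
We get `e : Fin p → S` injective, in `S0`, with
`fin (k l) (e l) = fin (!k l') (e l')`. All first components are equal (by induction along
`finRotate`), so `J l = (e l).2` is injective, and `J` is in `Cl_(p, a ∘ e, k)`. So some `J l` is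
in `Bad`, a contradiction.
-/

set_option autoImplicit false

namespace Pool.Agent.ESz

/-- the closed chains of copies of a given type -/
private def Chain {V : Type} {m p : ℕ} (i : ZMod 3) (a : Fin p → Fin m × ZMod 3 → V)
    (k : Fin p → Bool) (J : Fin p → Fin m) : Prop :=
  Function.Injective J ∧ ∀ l, tri (a l) (J l) (blk i (k l)) =
    tri (a (finRotate p l)) (J (finRotate p l)) (blk i (!k (finRotate p l)))

private theorem chain_bad {V : Type} {m q : ℕ} {σ : ZMod 3 → Equiv.Perm (Fin m)}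
    (hσ : Rigid q σ) {E : Finset (Sym2 V)} {f : Sym2 V → ℕ} (i : ZMod 3) {p : ℕ}
    (hp : p ∈ Finset.Icc 2 6) (a : Fin p → Fin m × ZMod 3 → V)
    (ha : ∀ l, IsCopy σ E f (a l)) (k : Fin p → Bool) :
    ∃ Bad : Finset (Fin m), Bad.card ≤ 6 * q ∧ ∀ J, Chain i a k J → ∃ l, J l ∈ Bad := by
  have h6 : p ≤ 6 := (Finset.mem_Icc.1 hp).2
  obtain ⟨Bad, h1, h2⟩ := packing (q := q) (Chain i a k) (fun J hJ => hJ.1) (by
    rintro ⟨J, hJ, hC⟩
    refine hσ i p hp k J ⟨hJ, fun l s t => ?_⟩
    have h3 := (ha l).mono (blk i (k l)) (J s l) (J t l)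
    have h4 := (ha (finRotate p l)).mono (blk i (!k (finRotate p l))) (J s (finRotate p l))
      (J t (finRotate p l))
    rw [(hC s).2 l, (hC t).2 l] at h3
    exact h3.trans h4.symm)
  refine ⟨Bad, h1.trans ?_, h2⟩
  rw [Fintype.card_fin]
  exact Nat.mul_le_mul_right q h6

private theorem rotate_const {W : Type} {p : ℕ} (g : Fin p → W)
    (h : ∀ l, g l = g (finRotate p l)) (l l' : Fin p) : g l = g l' := by
  rcases p with _ | p
  · exact l.elim0
  · have key : ∀ (n : ℕ) (hn : n < p + 1), g ⟨n, hn⟩ = g 0 := by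
      intro n
      induction n with
      | zero => exact fun _ => rfl
      | succ n ih =>
        intro hn
        have h1 := h ⟨n, Nat.lt_of_succ_lt hn⟩
        rw [finRotate_of_lt (Nat.lt_of_succ_lt_succ hn)] at h1
        rw [← h1, ih]
    exact (key l.1 l.2).trans (key l'.1 l'.2).symm

private theorem mem_tri {V : Type} {m : ℕ} (φ : Fin m × ZMod 3 → V) (j : Fin m) (i : ZMod 3)
    (b : Bool) : φ (j, i) ∈ tri φ j (blk i b) := by
  cases b
  · have h : i + 2 + 1 = i := by
      revert i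
      decide
    simp [tri, blk, h]
  · have h : i + 1 + 2 = i := by
      revert i
      decide
    simp [tri, blk, h]

private theorem tri_ne {V : Type} {m : ℕ} {φ : Fin m × ZMod 3 → V} (hφ : Function.Injective φ)
    (j : Fin m) (i : ZMod 3) : tri φ j (blk i true) ≠ tri φ j (blk i false) := by
  have h1 : i + 1 + 1 ≠ i + 2 + 1 := by
    revert i
    decide
  have h2 : i + 1 + 1 ≠ i + 2 + 2 := by
    revert i
    decide
  intro h
  have h3 : φ (j, i + 1 + 1) ∈ tri φ j (blk i false) := by
    rw [← h]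
    simp [tri, blk]
  simp only [tri, blk, Sym2.mem_iff, Bool.false_eq_true, if_false] at h3
  rcases h3 with h3 | h3
  · exact h1 (Prod.mk.inj (hφ h3)).2
  · exact h2 (Prod.mk.inj (hφ h3)).2

/-- The placement law. -/
theorem law {V : Type} [DecidableEq V] {m q T D : ℕ} {σ : ZMod 3 → Equiv.Perm (Fin m)}
    (hσ : Rigid q σ) {E : Finset (Sym2 V)} {f : Sym2 V → ℕ} (Φ : Finset (Fin m × ZMod 3 → V))
    (hΦ : ∀ φ ∈ Φ, IsCopy σ E f φ) (hT : Φ.card ≤ T) (hD : 2 * T < D ^ 4) (i : ZMod 3) :
    (place Φ i).card ≤ D * (2 * E.card) + T * (5 * (2 * T) ^ 6 * (6 * q)) := by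
  classical
  rcases Φ.eq_empty_or_nonempty with hΦ0 | ⟨φ₀, hφ₀⟩
  · subst hΦ0
    simp [place]
  have hT1 : 1 ≤ T := le_trans (Finset.card_pos.2 ⟨φ₀, hφ₀⟩) hT
  -- a copy for every placement
  have hex : ∀ x : V × Fin m, ∃ φ ∈ Φ, x ∈ place Φ i → φ (x.2, i) = x.1 := by
    intro x
    by_cases hx : x ∈ place Φ i
    · unfold place at hx
      obtain ⟨y, hy, hyx⟩ := Finset.mem_image.1 hx
      refine ⟨y.1, (Finset.mem_product.1 hy).1, fun _ => ?_⟩
      rw [← hyx]
    · exact ⟨φ₀, hφ₀, fun h => absurd h hx⟩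
  choose a haΦ ha using hex
  -- the bad indices
  have hbad : ∀ (p : ℕ) (b : Fin p → Φ) (k : Fin p → Bool), ∃ Bad : Finset (Fin m),
      p ∈ Finset.Icc 2 6 → Bad.card ≤ 6 * q ∧
        ∀ J, Chain i (fun l => (b l : Fin m × ZMod 3 → V)) k J → ∃ l, J l ∈ Bad := by
    intro p b k
    by_cases hp : p ∈ Finset.Icc 2 6
    · obtain ⟨Bad, h1, h2⟩ := chain_bad hσ i hp (fun l => (b l : Fin m × ZMod 3 → V))
        (fun l => hΦ _ (b l).2) k
      exact ⟨Bad, fun _ => ⟨h1, h2⟩⟩
    · exact ⟨∅, fun h => absurd h hp⟩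
  choose Bad hBad using hbad
  set B : Finset (Fin m) := (Finset.Icc 2 6).biUnion fun p =>
    (Finset.univ : Finset ((Fin p → Φ) × (Fin p → Bool))).biUnion fun x => Bad p x.1 x.2 with hB
  have hBcard : B.card ≤ 5 * (2 * T) ^ 6 * (6 * q) := by
    have h1 : ∀ p ∈ Finset.Icc 2 6, ((Finset.univ : Finset ((Fin p → Φ) × (Fin p → Bool))).biUnion
        fun x => Bad p x.1 x.2).card ≤ (2 * T) ^ 6 * (6 * q) := by
      intro p hp
      refine (Finset.card_biUnion_le_card_mul _ _ (6 * q) fun x _ =>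
        (hBad p x.1 x.2 hp).1).trans ?_
      refine Nat.mul_le_mul_right _ ?_
      rw [Finset.card_univ, Fintype.card_prod, Fintype.card_fun, Fintype.card_fun,
        Fintype.card_coe, Fintype.card_fin, Fintype.card_bool, ← mul_pow]
      calc (Φ.card * 2) ^ p ≤ (2 * T) ^ p := Nat.pow_le_pow_left (by omega) p
        _ ≤ (2 * T) ^ 6 := Nat.pow_le_pow_right (by omega) (Finset.mem_Icc.1 hp).2
    refine (Finset.card_biUnion_le_card_mul _ _ _ h1).trans ?_
    rw [Nat.card_Icc, mul_assoc]
  have hsplit : (place Φ i).card = ((place Φ i).filter fun x => x.2 ∈ B).card +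
      ((place Φ i).filter fun x => x.2 ∉ B).card :=
    (Finset.card_filter_add_card_filter_not _).symm
  have h1 : ((place Φ i).filter fun x => x.2 ∈ B).card ≤ T * (5 * (2 * T) ^ 6 * (6 * q)) := by
    have h2 : ((place Φ i).filter fun x => x.2 ∈ B).card ≤ (Φ ×ˢ B).card := by
      refine Finset.card_le_card_of_injOn (fun x => (a x, x.2)) ?_ ?_
      · intro x hx
        rw [Finset.mem_coe, Finset.mem_filter] at hx
        exact Finset.mem_coe.2 (Finset.mem_product.2 ⟨haΦ x, hx.2⟩)
      · intro x hx y hy hxy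
        rw [Finset.mem_coe, Finset.mem_filter] at hx hy
        obtain ⟨h3, h4⟩ := Prod.mk.inj hxy
        refine Prod.ext ?_ h4
        rw [← ha x hx.1, ← ha y hy.1, h3, h4]
    rw [Finset.card_product] at h2
    exact h2.trans (Nat.mul_le_mul hT hBcard)
  rw [hsplit, add_comm]
  refine Nat.add_le_add ?_ h1
  by_contra hcon
  push Not at hcon
  set S0 := (place Φ i).filter fun x => x.2 ∉ B with hS0
  have hS0m : ∀ x ∈ S0, x ∈ place Φ i ∧ x.2 ∉ B := fun x hx => Finset.mem_filter.1 hx
  set U : Finset (V × Sym2 V) := E.biUnion fun g => g.toFinset.image fun x => (x, g) with hU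
  have hUcard : U.card ≤ 2 * E.card := by
    rw [mul_comm]
    refine Finset.card_biUnion_le_card_mul _ _ _ fun g _ => ?_
    refine Finset.card_image_le.trans ?_
    rw [Sym2.card_toFinset]
    split_ifs <;> omega
  obtain ⟨p, hp, e, k, hinj, hmem, hcyc⟩ := short_loop S0 U
    (fun b x => (x.1, tri (a x) x.2 (blk i b))) (fun x => x.1) (by
      intro b x hx
      rw [hU, Finset.mem_biUnion]
      refine ⟨tri (a x) x.2 (blk i b), (hΦ _ (haΦ x)).mem _ _, ?_⟩
      refine Finset.mem_image.2 ⟨x.1, ?_, rfl⟩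
      rw [Sym2.mem_toFinset]
      have h3 := mem_tri (a x) x.2 i b
      rwa [ha x (hS0m x hx).1] at h3) (by
      intro x hx h
      exact tri_ne (hΦ _ (haΦ x)).inj x.2 i (Prod.mk.inj h).2) (by
      intro x _ y _ b b' h
      exact (Prod.mk.inj h).1) D T (by
      intro v
      refine le_trans ?_ hT
      refine Finset.card_le_card_of_injOn a ?_ ?_
      · intro x _
        exact haΦ x
      · intro x hx y hy hxy
        rw [Finset.mem_coe, Finset.mem_filter] at hx hy
        have h3 := ha x (hS0m x hx.1).1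
        have h4 := ha y (hS0m y hy.1).1
        rw [hx.2] at h3
        rw [hy.2, ← hxy] at h4
        have h5 := (hΦ _ (haΦ x)).inj (h3.trans h4.symm)
        exact Prod.ext (hx.2.trans hy.2.symm) (Prod.mk.inj h5).1) hD
    (lt_of_le_of_lt (Nat.mul_le_mul_left D hUcard) hcon)
  have hfst : ∀ l l', (e l).1 = (e l').1 :=
    rotate_const (fun l => (e l).1) fun l => (Prod.mk.inj (hcyc l)).1
  have hch : Chain i (fun l => a (e l)) k fun l => (e l).2 := by
    refine ⟨fun l l' h => hinj (Prod.ext (hfst l l') h), fun l => ?_⟩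
    exact (Prod.mk.inj (hcyc l)).2
  obtain ⟨l, hl⟩ := (hBad p (fun l => ⟨a (e l), haΦ _⟩) k hp).2 _ hch
  refine (hS0m _ (hmem l)).2 ?_
  rw [hB, Finset.mem_biUnion]
  refine ⟨p, hp, Finset.mem_biUnion.2 ⟨(fun l => ⟨a (e l), haΦ _⟩, k), Finset.mem_univ _, hl⟩⟩

end Pool.Agent.ESz
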