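import Mathlib

/-!
# Parameters

`numeric`: put `D = 12001 w^4`, `T = 6000 D^3 w^4`, `M = 18 D w`, `A = 9 D w m`,
`ν = m / (w M^2)` and `q = m / (1920 T^7)` (natural division), and
`K = (46080 * (6000 * 12001^3)^7)^7`, so that `T = 6000 * 12001^3 * w^16` and
`(46080 T^7)^7 = K w^784 ≤ m`.
* `2 T = 12000 D^3 w^4 < D^4` because `12000 w^4 < D`.
* `T * (5 * (2 T)^6 * (6 q)) = 1920 T^7 q ≤ m`, so `3 (2 D w m + m) ≤ 9 D w m = A`.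
* `m ≥ 1920 T^7` gives `q ≥ 1` and `m ≤ 3840 T^7 q`, so
  `m^7 ≤ (3840 T^7)^7 q^7`; with `(12 * 3840 T^7)^7 ≤ m` we get
  `12^7 m^6 * (3840 T^7)^7 ≤ m^7 ≤ (3840 T^7)^7 q^7`.
* `m ≥ w M^2` (as `w M^2 = 324 D^2 w^3 ≤ T`) gives `m ≤ 2 w M^2 ν`; so
  `2 w M^2 (T ν) ≥ T m = 6000 D^3 w^4 m > 5832 D^3 w^4 m = 2 w M^2 A`.
* `2 A = M m`; `w M^2 ≥ 2` gives `2 ν ≤ m`; `w ν M^2 ≤ m < 3 m`.

`exists_w`: take `w = ⌈2 ((3 m)^(1 + 1/1000) + 1) / m⌉ + 3`, which is at most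
`30 m^(1/1000)` for `m ≥ 1`; then `K w^784 ≤ K 30^784 m^(784/1000) ≤ m` as soon as
`m^(216/1000) ≥ K 30^784`.
-/

set_option autoImplicit false

namespace Pool.Agent.ESz

private lemma numeric_aux (w m D T : ℕ) (hw : 1 ≤ w) (hD : D = 12001 * w ^ 4)
    (hT : T = 6000 * D ^ 3 * w ^ 4) (h : (46080 * T ^ 7) ^ 7 ≤ m) :
    ∃ A D T M ν q : ℕ, 12 ^ 7 * m ^ 6 ≤ q ^ 7 ∧ q ≤ 3 * m ∧ 1 ≤ q ∧ 2 * T < D ^ 4 ∧
      3 * (D * (2 * (w * m)) + T * (5 * (2 * T) ^ 6 * (6 * q))) ≤ A ∧ A < T * ν ∧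
      2 * A ≤ M * m ∧ 2 * ν ≤ m ∧ w * (ν * M ^ 2) < 3 * m := by
  have hw4 : 1 ≤ w ^ 4 := Nat.one_le_pow _ _ hw
  have hD1 : 1 ≤ D := by rw [hD]; omega
  have hD3 : 1 ≤ D ^ 3 := Nat.one_le_pow _ _ hD1
  have hT1 : 1 ≤ T := by
    rw [hT]
    calc 1 ≤ 6000 * 1 * 1 := by norm_num
      _ ≤ 6000 * D ^ 3 * w ^ 4 := Nat.mul_le_mul (Nat.mul_le_mul le_rfl hD3) hw4
  have hT7 : 1 ≤ T ^ 7 := Nat.one_le_pow _ _ hT1
  -- lower bounds for m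
  have hm46 : 46080 * T ^ 7 ≤ m := by
    refine le_trans ?_ h
    exact Nat.le_self_pow (by norm_num) _
  have hTT : T ≤ T ^ 7 := Nat.le_self_pow (by norm_num) _
  have hm1 : 1 ≤ m := by omega
  have hDw : w * (18 * D * w) ^ 2 ≤ T := by
    rw [hT]
    have e1 : w * (18 * D * w) ^ 2 = 324 * (D ^ 2 * w ^ 3) := by ring
    have e2 : 6000 * D ^ 3 * w ^ 4 = 6000 * ((D ^ 2 * w ^ 3) * (D * w)) := by ring
    rw [e1, e2]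
    have h3 : D ^ 2 * w ^ 3 ≤ (D ^ 2 * w ^ 3) * (D * w) :=
      Nat.le_mul_of_pos_right _ (Nat.mul_pos hD1 hw)
    omega
  obtain ⟨W, hW⟩ : ∃ W, W = w * (18 * D * w) ^ 2 := ⟨_, rfl⟩
  have hW2 : 2 ≤ W := by
    rw [hW]
    have e1 : w * (18 * D * w) ^ 2 = 324 * (D ^ 2 * w ^ 3) := by ring
    have : 1 ≤ D ^ 2 * w ^ 3 :=
      Nat.mul_pos (Nat.one_le_pow _ _ hD1) (Nat.one_le_pow _ _ hw)
    omega
  have hWm : W ≤ m := by rw [hW]; omega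
  obtain ⟨ν, hν⟩ : ∃ ν, ν = m / W := ⟨_, rfl⟩
  obtain ⟨q, hq⟩ : ∃ q, q = m / (1920 * T ^ 7) := ⟨_, rfl⟩
  have hν1 : 1 ≤ ν := by rw [hν]; exact (Nat.one_le_div_iff (by omega)).2 hWm
  have hq1 : 1 ≤ q := by rw [hq]; exact (Nat.one_le_div_iff (by omega)).2 (by omega)
  have hνle : W * ν ≤ m := by rw [hν]; exact Nat.mul_div_le m W
  have hqle : 1920 * T ^ 7 * q ≤ m := by rw [hq]; exact Nat.mul_div_le m _
  have hνlt : m ≤ 2 * (W * ν) := by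
    have h1 : m < W * (ν + 1) := by rw [hν]; exact Nat.lt_mul_div_succ m (by omega)
    have h2 : W * (ν + 1) ≤ W * (ν + ν) := Nat.mul_le_mul_left _ (by omega)
    have h3 : W * (ν + ν) = 2 * (W * ν) := by ring
    omega
  have hqlt : m ≤ 3840 * T ^ 7 * q := by
    have h1 : m < 1920 * T ^ 7 * (q + 1) := by
      rw [hq]; exact Nat.lt_mul_div_succ m (by omega)
    have h2 : 1920 * T ^ 7 * (q + 1) ≤ 1920 * T ^ 7 * (q + q) := Nat.mul_le_mul_left _ (by omega)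
    have h3 : 1920 * T ^ 7 * (q + q) = 3840 * T ^ 7 * q := by ring
    omega
  refine ⟨9 * D * w * m, D, T, 18 * D * w, ν, q, ?_, ?_, hq1, ?_, ?_, ?_, ?_, ?_, ?_⟩
  · have h1 : m ^ 7 ≤ (3840 * T ^ 7) ^ 7 * q ^ 7 := by
      rw [← mul_pow]
      exact Nat.pow_le_pow_left hqlt 7
    have h2 : (3840 * T ^ 7) ^ 7 * (12 ^ 7 * m ^ 6) ≤ (3840 * T ^ 7) ^ 7 * q ^ 7 := by
      calc (3840 * T ^ 7) ^ 7 * (12 ^ 7 * m ^ 6) = (46080 * T ^ 7) ^ 7 * m ^ 6 := by ring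
        _ ≤ m * m ^ 6 := Nat.mul_le_mul_right _ h
        _ = m ^ 7 := by ring
        _ ≤ _ := h1
    exact Nat.le_of_mul_le_mul_left h2 (Nat.pow_pos (by omega))
  · have : q ≤ m := by
      refine le_trans ?_ hqle
      exact Nat.le_mul_of_pos_left _ (by omega)
    omega
  · rw [hT]
    have e1 : D ^ 4 = D ^ 3 * (12001 * w ^ 4) := by
      calc D ^ 4 = D ^ 3 * D := by ring
        _ = _ := by rw [← hD]
    have e2 : D ^ 3 * (12001 * w ^ 4) = 2 * (6000 * D ^ 3 * w ^ 4) + D ^ 3 * w ^ 4 := by ring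
    rw [e1, e2]
    have : 1 ≤ D ^ 3 * w ^ 4 := Nat.mul_pos hD3 hw4
    omega
  · have e1 : T * (5 * (2 * T) ^ 6 * (6 * q)) = 1920 * T ^ 7 * q := by ring
    have e2 : D * (2 * (w * m)) = 2 * (D * w * m) := by ring
    have e3 : 9 * D * w * m = 9 * (D * w * m) := by ring
    rw [e1, e2, e3]
    have h4 : m ≤ D * w * m := Nat.le_mul_of_pos_left _ (Nat.mul_pos hD1 hw)
    omega
  · have h1 : 2 * W * (9 * D * w * m) < 2 * W * (T * ν) := by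
      calc 2 * W * (9 * D * w * m) = 5832 * (D ^ 3 * w ^ 4 * m) := by rw [hW]; ring
        _ < 6000 * (D ^ 3 * w ^ 4 * m) := by
          have : 1 ≤ D ^ 3 * w ^ 4 * m := Nat.mul_pos (Nat.mul_pos hD3 hw4) hm1
          omega
        _ = T * m := by rw [hT]; ring
        _ ≤ T * (2 * (W * ν)) := Nat.mul_le_mul_left _ hνlt
        _ = 2 * W * (T * ν) := by ring
    exact Nat.lt_of_mul_lt_mul_left h1
  · exact le_of_eq (by ring)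
  · have : 2 * ν ≤ W * ν := Nat.mul_le_mul_right _ hW2
    omega
  · have e1 : w * (ν * (18 * D * w) ^ 2) = W * ν := by rw [hW]; ring
    rw [e1]
    omega

/-- The choice of the parameters. -/
theorem numeric : ∃ K : ℕ, ∀ w m : ℕ, 1 ≤ w → 1 ≤ m → K * w ^ 784 ≤ m →
    ∃ A D T M ν q : ℕ, 12 ^ 7 * m ^ 6 ≤ q ^ 7 ∧ q ≤ 3 * m ∧ 1 ≤ q ∧ 2 * T < D ^ 4 ∧
      3 * (D * (2 * (w * m)) + T * (5 * (2 * T) ^ 6 * (6 * q))) ≤ A ∧ A < T * ν ∧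
      2 * A ≤ M * m ∧ 2 * ν ≤ m ∧ w * (ν * M ^ 2) < 3 * m := by
  refine ⟨(46080 * (6000 * 12001 ^ 3) ^ 7) ^ 7, fun w m hw _ h => ?_⟩
  refine numeric_aux w m (12001 * w ^ 4) (6000 * (12001 * w ^ 4) ^ 3 * w ^ 4) hw rfl rfl ?_
  refine le_trans (le_of_eq ?_) h
  ring

private lemma exists_x (m c N : ℕ) (hN : N ≠ 0) (hm : (c + 1) ^ N ≤ m) :
    ∃ x : ℝ, x = (m : ℝ) ^ (1 / (N : ℝ)) ∧ (c : ℝ) + 1 ≤ x ∧ x ^ N = m := by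
  have hmpos : (0 : ℝ) < m := by
    have : 0 < m := lt_of_lt_of_le (Nat.pow_pos (Nat.succ_pos c)) hm
    exact_mod_cast this
  have hN' : (N : ℝ) ≠ 0 := by exact_mod_cast hN
  have hxm : ((m : ℝ) ^ (1 / (N : ℝ))) ^ N = m := by
    rw [← Real.rpow_natCast, ← Real.rpow_mul hmpos.le, one_div, inv_mul_cancel₀ hN',
      Real.rpow_one]
  refine ⟨_, rfl, ?_, hxm⟩
  have h1 : (((c : ℝ) + 1) ^ N) ≤ ((m : ℝ) ^ (1 / (N : ℝ))) ^ N := by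
    rw [hxm]
    exact_mod_cast hm
  exact le_of_pow_le_pow_left₀ hN (Real.rpow_nonneg hmpos.le _) h1

private lemma pow_bound (K c a b : ℕ) (x m y : ℝ) (hx1 : 1 ≤ x) (hcx : (c : ℝ) + 1 ≤ x)
    (hb : b ≠ 0) (h : x ^ (b + a) = m) (hc : c = K * 30 ^ a) (hy0 : 0 ≤ y) (hy : y ≤ 30 * x) :
    (K : ℝ) * y ^ a ≤ m := by
  have h4 : (c : ℝ) = (K : ℝ) * 30 ^ a := by rw [hc]; push_cast; rfl
  have h5 : x ≤ x ^ b := le_self_pow₀ hx1 hb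
  have hx0 : 0 ≤ x := by linarith
  calc (K : ℝ) * y ^ a ≤ (K : ℝ) * (30 * x) ^ a :=
        mul_le_mul_of_nonneg_left (pow_le_pow_left₀ hy0 hy a) (Nat.cast_nonneg _)
    _ = (c : ℝ) * x ^ a := by rw [mul_pow, h4, mul_assoc]
    _ ≤ x ^ b * x ^ a := mul_le_mul_of_nonneg_right (by linarith) (pow_nonneg hx0 _)
    _ = m := by rw [← pow_add, h]

private lemma rp_bound (m : ℕ) (x : ℝ) (hm : 1 ≤ m) (hx : x = (m : ℝ) ^ (1 / 1000 : ℝ))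
    (hx1 : 1 ≤ x) : ((3 * m : ℕ) : ℝ) ^ (1 + 1 / 1000 : ℝ) ≤ 9 * (m * x) := by
  have hmpos : (0 : ℝ) < m := by exact_mod_cast hm
  have hx0 : 0 ≤ x := by linarith
  rw [Nat.cast_mul, Real.mul_rpow (by positivity) hmpos.le, Real.rpow_add hmpos,
    Real.rpow_one, ← hx]
  refine mul_le_mul_of_nonneg_right ?_ (mul_nonneg hmpos.le hx0)
  calc (((3 : ℕ) : ℝ)) ^ (1 + 1 / 1000 : ℝ) ≤ (((3 : ℕ) : ℝ)) ^ (2 : ℝ) :=
        Real.rpow_le_rpow_of_exponent_le (by norm_num) (by norm_num)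
    _ = 9 := by norm_num

private lemma fin_bound (m : ℕ) (x E : ℝ) (hm : 1 ≤ m) (hx1 : 1 ≤ x)
    (hE : E ≤ 9 * (m * x)) : 2 * (E + 1) ≤ ((⌈20 * x⌉₊ + 3 : ℕ) : ℝ) * m := by
  have hm1 : (1 : ℝ) ≤ m := by exact_mod_cast hm
  have hw : 20 * x ≤ ((⌈20 * x⌉₊ + 3 : ℕ) : ℝ) := by
    have := Nat.le_ceil (20 * x)
    push_cast
    linarith
  have h1 : 20 * x * m ≤ ((⌈20 * x⌉₊ + 3 : ℕ) : ℝ) * m :=
    mul_le_mul_of_nonneg_right hw (by linarith)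
  have h2 : (1 : ℝ) ≤ m * x := by nlinarith
  nlinarith

/-- The choice of `w`. -/
theorem exists_w (K : ℕ) : ∃ m₀ : ℕ, ∀ m : ℕ, m₀ ≤ m → ∃ w : ℕ, 3 ≤ w ∧ K * w ^ 784 ≤ m ∧
    2 * (((3 * m : ℕ) : ℝ) ^ (1 + 1 / 1000 : ℝ) + 1) ≤ (w : ℝ) * m := by
  obtain ⟨N, hN⟩ : ∃ N : ℕ, N = 1000 := ⟨_, rfl⟩
  obtain ⟨a, ha⟩ : ∃ a : ℕ, a = 784 := ⟨_, rfl⟩
  rw [← ha]
  refine ⟨(K * 30 ^ a + 1) ^ N, fun m hm => ?_⟩
  have hm1 : 1 ≤ m := le_trans (Nat.one_le_pow _ _ (Nat.succ_pos _)) hm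
  obtain ⟨x, hx, hcx, hxm⟩ := exists_x m (K * 30 ^ a) N (by omega) hm
  have hx1 : 1 ≤ x := by
    have : (0 : ℝ) ≤ ((K * 30 ^ a : ℕ) : ℝ) := Nat.cast_nonneg _
    linarith
  have hx' : x = (m : ℝ) ^ (1 / 1000 : ℝ) := by
    rw [hx, hN]
    norm_num
  refine ⟨⌈20 * x⌉₊ + 3, by omega, ?_, fin_bound m x _ hm1 hx1 (rp_bound m x hm1 hx' hx1)⟩
  have hw : ((⌈20 * x⌉₊ + 3 : ℕ) : ℝ) ≤ 30 * x := by
    have := (Nat.ceil_lt_add_one (show 0 ≤ 20 * x by linarith)).le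
    push_cast
    linarith
  have h2 := pow_bound K (K * 30 ^ a) a 216 x m _ hx1 hcx (by norm_num)
    (by rw [← hxm, hN, ha]) rfl (Nat.cast_nonneg (⌈20 * x⌉₊ + 3)) hw
  exact_mod_cast h2

end Pool.Agent.ESz
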