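import Pool.Agent.ESz.Defs

/-!
# A saturated set of copies

Proof. By induction on `t ≤ T`: either the conclusion holds, or there is a set `Φ` of at most `t`
copies with `t ν ≤ ∑ i, (place Φ i).card`. Step: if no `Φ` satisfies the conclusion, then for the
`Φ` of the induction hypothesis there is a copy `ψ` with at least `ν` vertices `u` such that
`(ψ u, u.1) ∉ place Φ u.2`; then `place (insert ψ Φ) i` contains `place Φ i` and, disjoint from
it, the new `(ψ (j, i), j)`; the map `u ↦ (ψ u, u.1)` is injective on the `u` with `u.2 = i`, so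
the sum over `i` grows by at least `ν`. For `t = T`: `T ν ≤ B`, a contradiction.
-/

set_option autoImplicit false

namespace Pool.Agent.ESz

/-- A saturated set of copies: every copy has fewer than `ν` new placements. -/
theorem process {V : Type} [DecidableEq V] {m T ν B : ℕ} {σ : ZMod 3 → Equiv.Perm (Fin m)}
    {E : Finset (Sym2 V)} {f : Sym2 V → ℕ}
    (hB : ∀ Φ : Finset (Fin m × ZMod 3 → V), (∀ φ ∈ Φ, IsCopy σ E f φ) → Φ.card ≤ T →
      ∑ i, (place Φ i).card ≤ B)
    (hν : B < T * ν) :
    ∃ Φ : Finset (Fin m × ZMod 3 → V), (∀ φ ∈ Φ, IsCopy σ E f φ) ∧ Φ.card ≤ T ∧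
      ∀ ψ, IsCopy σ E f ψ →
        (Finset.univ.filter (fun u : Fin m × ZMod 3 => (ψ u, u.1) ∉ place Φ u.2)).card < ν := by
  classical
  by_contra hcon
  push Not at hcon
  have key : ∀ t ≤ T, ∃ Φ : Finset (Fin m × ZMod 3 → V), (∀ φ ∈ Φ, IsCopy σ E f φ) ∧
      Φ.card ≤ t ∧ t * ν ≤ ∑ i, (place Φ i).card := by
    intro t
    induction t with
    | zero => exact fun _ => ⟨∅, by simp, by simp, by simp⟩
    | succ t ih =>
      intro ht
      obtain ⟨Φ, h1, h2, h3⟩ := ih (by omega)
      obtain ⟨ψ, hψ, hν'⟩ := hcon Φ h1 (by omega)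
      refine ⟨insert ψ Φ, ?_, (Finset.card_insert_le _ _).trans (by omega), ?_⟩
      · intro φ hφ
        rcases Finset.mem_insert.1 hφ with rfl | h
        · exact hψ
        · exact h1 φ h
      · have hstep : ∀ i : ZMod 3, (place Φ i).card +
            (Finset.univ.filter (fun u : Fin m × ZMod 3 =>
              (ψ u, u.1) ∉ place Φ u.2 ∧ u.2 = i)).card ≤ (place (insert ψ Φ) i).card := by
          intro i
          have himg : ((Finset.univ.filter (fun u : Fin m × ZMod 3 =>
              (ψ u, u.1) ∉ place Φ u.2 ∧ u.2 = i)).image (fun u => (ψ u, u.1))).card =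
              (Finset.univ.filter (fun u : Fin m × ZMod 3 =>
              (ψ u, u.1) ∉ place Φ u.2 ∧ u.2 = i)).card := by
            apply Finset.card_image_of_injOn
            intro u hu v hv huv
            have hu' := (Finset.mem_filter.1 (Finset.mem_coe.1 hu)).2.2
            have hv' := (Finset.mem_filter.1 (Finset.mem_coe.1 hv)).2.2
            have := (Prod.mk.inj huv).2
            exact Prod.ext this (hu'.trans hv'.symm)
          rw [← himg, ← Finset.card_union_of_disjoint]
          · apply Finset.card_le_card
            intro x hx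
            rcases Finset.mem_union.1 hx with hx | hx
            · obtain ⟨y, hy, rfl⟩ := Finset.mem_image.1 hx
              refine Finset.mem_image.2 ⟨y, ?_, rfl⟩
              exact Finset.mem_product.2 ⟨Finset.mem_insert_of_mem (Finset.mem_product.1 hy).1,
                Finset.mem_univ _⟩
            · obtain ⟨u, hu, rfl⟩ := Finset.mem_image.1 hx
              have hu' := (Finset.mem_filter.1 hu).2.2
              refine Finset.mem_image.2 ⟨(ψ, u.1), ?_, ?_⟩
              · exact Finset.mem_product.2 ⟨Finset.mem_insert_self _ _, Finset.mem_univ _⟩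
              · simp only [← hu']
          · rw [Finset.disjoint_left]
            intro x hx hx'
            obtain ⟨u, hu, rfl⟩ := Finset.mem_image.1 hx'
            have hu' := (Finset.mem_filter.1 hu).2
            exact hu'.1 (hu'.2 ▸ hx)
        have hsum := Finset.sum_le_sum (fun i (_ : i ∈ (Finset.univ : Finset (ZMod 3))) =>
          hstep i)
        rw [Finset.sum_add_distrib] at hsum
        have hfib : ∑ i : ZMod 3, (Finset.univ.filter (fun u : Fin m × ZMod 3 =>
              (ψ u, u.1) ∉ place Φ u.2 ∧ u.2 = i)).card =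
            (Finset.univ.filter (fun u : Fin m × ZMod 3 => (ψ u, u.1) ∉ place Φ u.2)).card := by
          rw [Finset.card_eq_sum_card_fiberwise (f := fun u : Fin m × ZMod 3 => u.2)
            (t := (Finset.univ : Finset (ZMod 3))) (fun _ _ => Finset.mem_coe.2 (Finset.mem_univ _))]
          refine Finset.sum_congr rfl (fun i _ => ?_)
          rw [Finset.filter_filter]
        rw [hfib] at hsum
        have : (t + 1) * ν = t * ν + ν := by ring
        omega
  obtain ⟨Φ, h1, h2, h3⟩ := key T le_rfl
  have := hB Φ h1 h2
  omega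

end Pool.Agent.ESz
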