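import Pool.Agent.ESz.Good
import Pool.Agent.ESz.Law
import Pool.Agent.ESz.Process
import Pool.Agent.ESz.Color
import Pool.Agent.ESz.Numeric

/-!
# One colouring for a family of sparse edge sets
-/

set_option autoImplicit false

namespace Pool.Agent.ESz

open Classical in
/-- One colour class `B` for a whole family of edge sets `E t`, each with at most `w m` edges and
each meeting at most `w` of them. -/
theorem family : ∃ K : ℕ, ∀ w m : ℕ, 1 ≤ w → 1 ≤ m → K * w ^ 784 ≤ m →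
    ∃ σ : ZMod 3 → Equiv.Perm (Fin m), ∀ (V : Type) (f : Sym2 V → ℕ) (ι : Type) (_ : Fintype ι)
      (E : ι → Finset (Sym2 V)), (∀ t, (E t).card ≤ w * m) →
      (∀ t, {s | ¬ Disjoint (E s) (E t)}.ncard ≤ w) →
      ∃ B : Finset (Sym2 V), ∀ t ψ, IsCopy σ (E t) f ψ →
        (∃ j k, tri ψ j k ∈ B) ∧ ∃ j k, tri ψ j k ∉ B := by
  obtain ⟨K, hK⟩ := numeric
  refine ⟨K, fun w m hw hm hwm => ?_⟩
  obtain ⟨A, D, T, M, ν, q, hq1, hq2, hq3, hTD, hA, hAT, hAM, hνm, hfin⟩ := hK w m hw hm hwm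
  obtain ⟨σ, hσ⟩ := exists_rigid hq1 hq2 hq3
  refine ⟨σ, fun V f ι _ E hE hdis => ?_⟩
  have hstep : ∀ t, ∃ B : Finset (Sym2 V), B ⊆ E t ∧ B.card ≤ ν * M ^ 2 ∧
      ∀ ψ, IsCopy σ (E t) f ψ → ∃ j k, tri ψ j k ∈ B := by
    intro t
    have hbd : ∀ Φ : Finset (Fin m × ZMod 3 → V), (∀ φ ∈ Φ, IsCopy σ (E t) f φ) →
        Φ.card ≤ T → ∑ i, (place Φ i).card ≤ A := by
      intro Φ hΦ hΦT
      have h1 : ∀ i ∈ (Finset.univ : Finset (ZMod 3)), (place Φ i).card ≤
          D * (2 * (w * m)) + T * (5 * (2 * T) ^ 6 * (6 * q)) := by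
        intro i _
        refine (law hσ Φ hΦ hΦT hTD i).trans ?_
        have h3 : D * (2 * (E t).card) ≤ D * (2 * (w * m)) :=
          Nat.mul_le_mul_left _ (Nat.mul_le_mul_left _ (hE t))
        exact Nat.add_le_add_right h3 _
      have h2 := Finset.sum_le_card_nsmul _ _ _ h1
      have hc : (Finset.univ : Finset (ZMod 3)).card = 3 := rfl
      rw [hc, smul_eq_mul] at h2
      exact h2.trans hA
    obtain ⟨Φ, hΦ, hΦT, hψ⟩ := process hbd hAT
    exact exists_hitting Φ (hbd Φ hΦ hΦT) hAM hνm hψ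
  choose B hBE hBc hBh using hstep
  refine ⟨Finset.univ.biUnion B, fun t ψ hψ => ⟨?_, ?_⟩⟩
  · obtain ⟨j, k, hjk⟩ := hBh t ψ hψ
    exact ⟨j, k, Finset.mem_biUnion.2 ⟨t, Finset.mem_univ _, hjk⟩⟩
  · by_contra hcon
    push Not at hcon
    have hsub : (Finset.univ : Finset (Fin m × ZMod 3)).image (fun x => tri ψ x.1 x.2) ⊆
        (Finset.univ.filter (fun s => ¬ Disjoint (E s) (E t))).biUnion B := by
      intro x hx
      obtain ⟨y, -, rfl⟩ := Finset.mem_image.1 hx
      obtain ⟨s, -, hs⟩ := Finset.mem_biUnion.1 (hcon y.1 y.2)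
      refine Finset.mem_biUnion.2 ⟨s, Finset.mem_filter.2 ⟨Finset.mem_univ _, ?_⟩, hs⟩
      exact Finset.not_disjoint_iff.2 ⟨_, hBE s hs, hψ.mem y.1 y.2⟩
    have h1 := Finset.card_le_card hsub
    rw [Finset.card_image_of_injective _ (tri_injective hψ.inj), Finset.card_univ,
      Fintype.card_prod, Fintype.card_fin, ZMod.card] at h1
    have h2 : ((Finset.univ.filter (fun s => ¬ Disjoint (E s) (E t))).biUnion B).card ≤
        w * (ν * M ^ 2) := by
      refine (Finset.card_biUnion_le_card_mul _ _ _ (fun s _ => hBc s)).trans ?_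
      refine Nat.mul_le_mul_right _ ?_
      have h3 := hdis t
      rw [← Set.ncard_coe_finset]
      refine le_trans (le_of_eq ?_) h3
      congr 1
      ext s
      simp
    omega

end Pool.Agent.ESz
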