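import Pool.Agent.ESz.Defs

/-!
# The edge-ordered graph on `Fin (3 m)`

Take an equivalence `ε : Fin m × ZMod 3 ≃ Fin (3 * m)` and let `u, v` be adjacent in `G` when
`ε.symm u` and `ε.symm v` are different and have the same first component. The rank of `s(u, v)`
with `ε.symm u = (j, a)`, `ε.symm v = (j', b)` is `k.val * m + σ k j` with `k = -(a + b)` if
`j = j'` and `0` otherwise (symmetric in `u, v`; use `Sym2.lift`). For `a ≠ b` in `ZMod 3` the
third element is `k = -(a + b)`, so the edges of `G` are `s(ε (j, k + 1), ε (j, k + 2))` and the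
rank of this edge is `k.val * m + σ k j`. Take `ψ = φ ∘ ε`.
-/

set_option autoImplicit false

namespace Pool.Agent.ESz

private lemma z3a : ∀ k k' : ZMod 3, k + 1 = k' + 2 → k + 2 = k' + 1 → False := by decide

private lemma z3b : ∀ k : ZMod 3, k + 1 = k + 2 → False := by decide

private lemma z3e : ∀ a b : ZMod 3, a ≠ b →
    (-(a + b) + 1 = a ∧ -(a + b) + 2 = b) ∨ (-(a + b) + 1 = b ∧ -(a + b) + 2 = a) := by decide

/-- The edge-ordered graph on `Fin (3 m)` which belongs to `σ`; its components are the `m`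
triangles `{j, m + j, 2 m + j}`. -/
theorem transport {m : ℕ} (σ : ZMod 3 → Equiv.Perm (Fin m)) :
    ∃ (G : SimpleGraph (Fin (3 * m))) (g : Sym2 (Fin (3 * m)) → ℕ),
      Set.InjOn g G.edgeSet ∧ (∀ u v, G.Adj u v ↔ u ≠ v ∧ u.val % m = v.val % m) ∧
      ∀ (N : ℕ) (f : Sym2 (Fin N) → ℕ) (φ : Fin (3 * m) → Fin N), Function.Injective φ →
        (∀ e ∈ G.edgeSet, ∀ e' ∈ G.edgeSet,
          (g e < g e' ↔ f (Sym2.map φ e) < f (Sym2.map φ e'))) →
        ∃ ψ : Fin m × ZMod 3 → Fin N, Function.Injective ψ ∧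
          (∀ (k : ZMod 3) (j j' : Fin m), σ k j < σ k j' ↔ f (tri ψ j k) < f (tri ψ j' k)) ∧
          ∀ j k, ∃ e ∈ G.edgeSet, tri ψ j k = Sym2.map φ e := by
  classical
  obtain ⟨ε, hε⟩ : ∃ ε : Fin m × ZMod 3 ≃ Fin (3 * m), ∀ x, (ε x).val % m = x.1.val := by
    have key : ∃ ε : Fin m × Fin 3 ≃ Fin (3 * m), ∀ x, (ε x).val % m = x.1.val := by
      refine ⟨(Equiv.prodComm (Fin m) (Fin 3)).trans finProdFinEquiv, ?_⟩
      intro x
      have h1 : (((Equiv.prodComm (Fin m) (Fin 3)).trans finProdFinEquiv) x).val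
          = x.1.val + m * x.2.val := rfl
      rw [h1, Nat.add_mul_mod_self_left, Nat.mod_eq_of_lt x.1.isLt]
    exact key
  obtain ⟨edge, hedge⟩ : ∃ edge : Fin m × ZMod 3 → Sym2 (Fin (3 * m)),
      ∀ x, edge x = s(ε (x.1, x.2 + 1), ε (x.1, x.2 + 2)) := ⟨_, fun _ => rfl⟩
  have hinj : Function.Injective edge := by
    intro x y hxy
    rw [hedge, hedge, Sym2.eq_iff] at hxy
    rcases hxy with ⟨h1, _⟩ | ⟨h1, h2⟩
    · have h3 := ε.injective h1
      rw [Prod.mk.injEq] at h3
      exact Prod.ext h3.1 (add_right_cancel h3.2)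
    · have h3 := ε.injective h1
      have h4 := ε.injective h2
      rw [Prod.mk.injEq] at h3 h4
      exact (z3a _ _ h3.2 h4.2).elim
  have hnd : ∀ x, ¬ (edge x).IsDiag := by
    intro x hx
    rw [hedge, Sym2.mk_isDiag_iff] at hx
    have h3 := ε.injective hx
    rw [Prod.mk.injEq] at h3
    exact z3b _ h3.2
  obtain ⟨rank, hrank⟩ : ∃ rank : Fin m × ZMod 3 → ℕ,
      ∀ x, rank x = x.2.val * m + (σ x.2 x.1).val := ⟨_, fun _ => rfl⟩
  set G : SimpleGraph (Fin (3 * m)) := SimpleGraph.fromEdgeSet (Set.range edge) with hG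
  have hE : G.edgeSet = Set.range edge := by
    rw [hG, SimpleGraph.edgeSet_fromEdgeSet]
    ext e
    simp only [Set.mem_sdiff, Set.mem_range]
    constructor
    · exact fun h => h.1
    · rintro ⟨x, rfl⟩
      exact ⟨⟨x, rfl⟩, hnd x⟩
  set g : Sym2 (Fin (3 * m)) → ℕ := Function.extend edge rank (fun _ => 0) with hg
  have hgr : ∀ x, g (edge x) = rank x := fun x => hinj.extend_apply rank _ x
  refine ⟨G, g, ?_, ?_, ?_⟩
  · intro e he e' he' h
    rw [hE] at he he'
    obtain ⟨x, rfl⟩ := he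
    obtain ⟨y, rfl⟩ := he'
    rw [hgr, hgr, hrank, hrank] at h
    have ha : (σ x.2 x.1).val < m := (σ x.2 x.1).isLt
    have hb : (σ y.2 y.1).val < m := (σ y.2 y.1).isLt
    have hm : 0 < m := by omega
    have h1 : x.2.val = y.2.val := by
      have h2 := congrArg (· / m) h
      simp only [Nat.add_comm _ (σ x.2 x.1).val, Nat.add_comm _ (σ y.2 y.1).val,
        Nat.add_mul_div_right _ _ hm, Nat.div_eq_of_lt ha, Nat.div_eq_of_lt hb] at h2
      omega
    have h2 : x.2 = y.2 := ZMod.val_injective 3 h1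
    have h3 : (σ x.2 x.1).val = (σ y.2 y.1).val := by
      rw [h1] at h
      omega
    have h4 : x.1 = y.1 := by
      rw [h2] at h3
      exact (σ y.2).injective (Fin.ext h3)
    rw [Prod.ext h4 h2]
  · intro u v
    obtain ⟨⟨j, a⟩, rfl⟩ := ε.surjective u
    obtain ⟨⟨j', b⟩, rfl⟩ := ε.surjective v
    rw [hε, hε, ← SimpleGraph.mem_edgeSet, hE]
    constructor
    · rintro ⟨x, hx⟩
      rw [hedge, Sym2.eq_iff] at hx
      rcases hx with ⟨h2, h3⟩ | ⟨h2, h3⟩
      · have h4 := ε.injective h2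
        have h5 := ε.injective h3
        rw [Prod.mk.injEq] at h4 h5
        refine ⟨fun h => ?_, ?_⟩
        · have h6 := ε.injective h
          rw [Prod.mk.injEq] at h6
          exact z3b x.2 (by rw [h4.2, h5.2, h6.2])
        · show j.val = j'.val
          rw [← h4.1, ← h5.1]
      · have h4 := ε.injective h2
        have h5 := ε.injective h3
        rw [Prod.mk.injEq] at h4 h5
        refine ⟨fun h => ?_, ?_⟩
        · have h6 := ε.injective h
          rw [Prod.mk.injEq] at h6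
          exact z3b x.2 (by rw [h4.2, h5.2, h6.2])
        · show j.val = j'.val
          rw [← h4.1, ← h5.1]
    · rintro ⟨h1, h2⟩
      have hj : j = j' := Fin.ext h2
      subst hj
      have hab : a ≠ b := by
        rintro rfl
        exact h1 rfl
      refine ⟨(j, -(a + b)), ?_⟩
      rw [hedge, Sym2.eq_iff]
      rcases z3e a b hab with ⟨h3, h4⟩ | ⟨h3, h4⟩
      · left
        exact ⟨by simp only [h3], by simp only [h4]⟩
      · right
        exact ⟨by simp only [h3], by simp only [h4]⟩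
  · intro N f φ hφ hord
    have htri : ∀ j k, tri (φ ∘ ε) j k = Sym2.map φ (edge (j, k)) := by
      intro j k
      rw [hedge]
      rfl
    refine ⟨φ ∘ ε, hφ.comp ε.injective, ?_, ?_⟩
    · intro k j j'
      rw [htri, htri, ← hord (edge (j, k)) (by rw [hE]; exact ⟨_, rfl⟩) (edge (j', k))
        (by rw [hE]; exact ⟨_, rfl⟩), hgr, hgr, hrank, hrank, Fin.lt_def]
      simp only
      omega
    · intro j k
      exact ⟨edge (j, k), by rw [hE]; exact ⟨_, rfl⟩, htri j k⟩

end Pool.Agent.ESz
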