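import Mathlib

/-!
# Windows of an ordering

For `x : Sym2 (Fin N)` let `r x` be the number of `y` which are not diagonal with `f y < f x`.
`r` is injective on the nondiagonal elements. The windows are
`E t = {x : x not diagonal, t L ≤ r x < (t + 2) L}`, `t < N^2 + 1` (`r x < N^2 + 1`); a window has
at most `2 L` elements, and the windows `s, t` are disjoint unless `|s - t| ≤ 1`. Let `S` be
nonempty, `lo` and `hi` elements of `S` with `f lo` minimal and `f hi` maximal. All nondiagonal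
`x` with `f lo ≤ f x ≤ f hi` are counted, there are `r hi - r lo + 1` of them, so
`r hi < r lo + L`, and `S ⊆ E t` for `t = r lo / L`.
-/

set_option autoImplicit false

namespace Pool.Agent.ESz

open Classical in
private noncomputable def rk {N : ℕ} (f : Sym2 (Fin N) → ℕ) (x : Sym2 (Fin N)) : ℕ :=
  (Finset.univ.filter fun y => ¬ y.IsDiag ∧ f y < f x).card

open Classical in
private lemma rk_mono {N : ℕ} (f : Sym2 (Fin N) → ℕ) {x y : Sym2 (Fin N)} (h : f x ≤ f y) :
    rk f x ≤ rk f y := by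
  refine Finset.card_le_card fun z hz => ?_
  rw [Finset.mem_filter] at hz ⊢
  exact ⟨hz.1, hz.2.1, hz.2.2.trans_le h⟩

open Classical in
private lemma rk_lt {N : ℕ} (f : Sym2 (Fin N) → ℕ) {x y : Sym2 (Fin N)} (hx : ¬ x.IsDiag)
    (h : f x < f y) : rk f x < rk f y := by
  refine Finset.card_lt_card ?_
  rw [Finset.ssubset_iff_of_subset]
  · refine ⟨x, ?_, ?_⟩
    · rw [Finset.mem_filter]
      exact ⟨Finset.mem_univ _, hx, h⟩
    · rw [Finset.mem_filter]
      exact fun hz => lt_irrefl _ hz.2.2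
  · intro z hz
    rw [Finset.mem_filter] at hz ⊢
    exact ⟨hz.1, hz.2.1, hz.2.2.trans h⟩

private lemma rk_inj {N : ℕ} (f : Sym2 (Fin N) → ℕ) (hf : Function.Injective f)
    {x y : Sym2 (Fin N)} (hx : ¬ x.IsDiag) (hy : ¬ y.IsDiag) (h : rk f x = rk f y) : x = y := by
  rcases lt_trichotomy (f x) (f y) with h1 | h1 | h1
  · exact absurd h (rk_lt f hx h1).ne
  · exact hf h1
  · exact absurd h.symm (rk_lt f hy h1).ne

open Classical in
private lemma rk_le {N : ℕ} (f : Sym2 (Fin N) → ℕ) (x : Sym2 (Fin N)) :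
    rk f x ≤ Fintype.card (Sym2 (Fin N)) :=
  Finset.card_le_univ _

open Classical in
/-- Windows. -/
theorem windows {N : ℕ} (f : Sym2 (Fin N) → ℕ) (hf : Function.Injective f) (L : ℕ) (hL : 1 ≤ L) :
    ∃ (ι : Type) (_ : Fintype ι) (E : ι → Finset (Sym2 (Fin N))), (∀ t, (E t).card ≤ 2 * L) ∧
      (∀ t, {s | ¬ Disjoint (E s) (E t)}.ncard ≤ 3) ∧
      ∀ S : Finset (Sym2 (Fin N)), S.Nonempty → (∀ x ∈ S, ¬ x.IsDiag) →
        {x : Sym2 (Fin N) | ¬ x.IsDiag ∧ ∃ e ∈ S, ∃ e' ∈ S, f e ≤ f x ∧ f x ≤ f e'}.ncard < L →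
        ∃ t, S ⊆ E t := by
  refine ⟨Fin (Fintype.card (Sym2 (Fin N)) + 1), inferInstance,
    fun t => Finset.univ.filter fun x => ¬ x.IsDiag ∧ t.val * L ≤ rk f x ∧
      rk f x < (t.val + 2) * L, ?_, ?_, ?_⟩
  · intro t
    have h1 : (Finset.Ico (t.val * L) ((t.val + 2) * L)).card = 2 * L := by
      rw [Nat.card_Ico, ← Nat.sub_mul, Nat.add_sub_cancel_left]
    rw [← h1]
    refine Finset.card_le_card_of_injOn (rk f) ?_ ?_
    · intro x hx
      have hx' := (Finset.mem_filter.1 (Finset.mem_coe.1 hx)).2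
      exact Finset.mem_coe.2 (Finset.mem_Ico.2 ⟨hx'.2.1, hx'.2.2⟩)
    · intro x hx y hy h
      have hx' := (Finset.mem_filter.1 (Finset.mem_coe.1 hx)).2
      have hy' := (Finset.mem_filter.1 (Finset.mem_coe.1 hy)).2
      exact rk_inj f hf hx'.1 hy'.1 h
  · intro t
    rw [← Set.ncard_image_of_injective _ Fin.val_injective]
    refine (Set.ncard_le_ncard (t := (({t.val - 1, t.val, t.val + 1} : Finset ℕ) : Set ℕ)) ?_
      (Finset.finite_toSet _)).trans ?_
    · rintro _ ⟨s, hs, rfl⟩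
      rw [Set.mem_setOf_eq, Finset.not_disjoint_iff] at hs
      obtain ⟨x, hx, hy⟩ := hs
      have hx' := (Finset.mem_filter.1 hx).2
      have hy' := (Finset.mem_filter.1 hy).2
      have h1 : s.val < t.val + 2 :=
        lt_of_mul_lt_mul_right (hx'.2.1.trans_lt hy'.2.2) (Nat.zero_le L)
      have h2 : t.val < s.val + 2 :=
        lt_of_mul_lt_mul_right (hy'.2.1.trans_lt hx'.2.2) (Nat.zero_le L)
      rw [Finset.mem_coe, Finset.mem_insert, Finset.mem_insert, Finset.mem_singleton]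
      omega
    · rw [Set.ncard_coe_finset]
      exact Finset.card_le_three
  · intro S hS hd hC
    obtain ⟨lo, hlo, hlo'⟩ := S.exists_min_image f hS
    obtain ⟨hi, hhi, hhi'⟩ := S.exists_max_image f hS
    have hle : rk f lo ≤ Fintype.card (Sym2 (Fin N)) := rk_le f lo
    have h1 : rk f hi < rk f lo + L := by
      have h2 : (Finset.univ.filter fun y : Sym2 (Fin N) => ¬ y.IsDiag ∧ f y < f hi) ⊆
          (Finset.univ.filter fun y : Sym2 (Fin N) => ¬ y.IsDiag ∧ f y < f lo) ∪
          (Finset.univ.filter fun y : Sym2 (Fin N) => ¬ y.IsDiag ∧ f lo ≤ f y ∧ f y ≤ f hi) := by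
        intro y hy
        rw [Finset.mem_filter] at hy
        rw [Finset.mem_union, Finset.mem_filter, Finset.mem_filter]
        rcases lt_or_ge (f y) (f lo) with h | h
        · exact Or.inl ⟨hy.1, hy.2.1, h⟩
        · exact Or.inr ⟨hy.1, hy.2.1, h, hy.2.2.le⟩
      have h3 : (Finset.univ.filter fun y : Sym2 (Fin N) =>
          ¬ y.IsDiag ∧ f lo ≤ f y ∧ f y ≤ f hi).card < L := by
        refine lt_of_le_of_lt ?_ hC
        rw [← Set.ncard_coe_finset]
        refine Set.ncard_le_ncard ?_ (Set.toFinite _)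
        intro y hy
        have hy' := (Finset.mem_filter.1 (Finset.mem_coe.1 hy)).2
        exact ⟨hy'.1, lo, hlo, hi, hhi, hy'.2.1, hy'.2.2⟩
      have h4 := (Finset.card_le_card h2).trans (Finset.card_union_le _ _)
      have h5 : rk f hi ≤ rk f lo + (Finset.univ.filter fun y : Sym2 (Fin N) =>
          ¬ y.IsDiag ∧ f lo ≤ f y ∧ f y ≤ f hi).card := h4
      omega
    refine ⟨⟨rk f lo / L, Nat.lt_succ_of_le ((Nat.div_le_self _ _).trans hle)⟩, ?_⟩
    intro x hx
    rw [Finset.mem_filter]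
    have h6 := rk_mono f (hlo' x hx)
    have h7 := rk_mono f (hhi' x hx)
    refine ⟨Finset.mem_univ _, hd x hx, (Nat.div_mul_le_self _ _).trans h6, ?_⟩
    have h8 : rk f lo < (rk f lo / L + 1) * L := by
      have := Nat.lt_div_mul_add (a := rk f lo) (b := L) hL
      rw [add_mul, one_mul]
      exact this
    have h9 : (rk f lo / L + 2) * L = (rk f lo / L + 1) * L + L := by ring
    show rk f x < (rk f lo / L + 2) * L
    rw [h9]
    omega

end Pool.Agent.ESz
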