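import Pool.Agent.ESz.Family
import Pool.Agent.ESz.Transport
import Pool.Agent.ESz.Windows

/-!
# Assembly
-/

set_option autoImplicit false

namespace Pool.Agent.ESz

open Classical in
/-- Sparse hosts and windows of length `n^(1+c)`. -/
theorem main : ∃ c : ℝ, c = 1 / 1000 ∧ ∃ m₀ : ℕ, ∀ m : ℕ, m₀ ≤ m →
    ∃ (G : SimpleGraph (Fin (3 * m))) (g : Sym2 (Fin (3 * m)) → ℕ),
      Set.InjOn g G.edgeSet ∧ (∀ u v, G.Adj u v ↔ u ≠ v ∧ u.val % m = v.val % m) ∧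
      ∀ (N : ℕ) (f : Sym2 (Fin N) → ℕ), Function.Injective f →
        (∀ E : Finset (Sym2 (Fin N)), (E.card : ℝ) ≤ ((3 * m : ℕ) : ℝ) ^ (1 + c) →
          ∃ col : Sym2 (Fin N) → Bool,
            ¬ ∃ φ : Fin (3 * m) → Fin N, Function.Injective φ ∧
              (∀ e ∈ G.edgeSet, Sym2.map φ e ∈ E) ∧
              ∃ b : Bool, (∀ e ∈ G.edgeSet, col (Sym2.map φ e) = b) ∧
                ∀ e ∈ G.edgeSet, ∀ e' ∈ G.edgeSet,
                  (g e < g e' ↔ f (Sym2.map φ e) < f (Sym2.map φ e'))) ∧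
        ∃ col : Sym2 (Fin N) → Bool,
          ∀ φ : Fin (3 * m) → Fin N, Function.Injective φ →
            (∃ b : Bool, (∀ e ∈ G.edgeSet, col (Sym2.map φ e) = b) ∧
              ∀ e ∈ G.edgeSet, ∀ e' ∈ G.edgeSet,
                (g e < g e' ↔ f (Sym2.map φ e) < f (Sym2.map φ e'))) →
            ((3 * m : ℕ) : ℝ) ^ (1 + c) <
              (({x : Sym2 (Fin N) | ¬ x.IsDiag ∧ ∃ e ∈ G.edgeSet, ∃ e' ∈ G.edgeSet,
                f (Sym2.map φ e) ≤ f x ∧ f x ≤ f (Sym2.map φ e')}.ncard : ℕ) : ℝ) := by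
  obtain ⟨K, hK⟩ := family
  obtain ⟨m₀, hm₀⟩ := exists_w K
  refine ⟨1 / 1000, rfl, max m₀ 1, fun m hm => ?_⟩
  have hm1 : 1 ≤ m := le_trans (le_max_right _ _) hm
  obtain ⟨w, hw3, hwK, hwm⟩ := hm₀ m (le_trans (le_max_left _ _) hm)
  obtain ⟨σ, hσ⟩ := hK w m (by omega) hm1 hwK
  obtain ⟨G, g, hinj, hdeg, htr⟩ := transport σ
  refine ⟨G, g, hinj, hdeg, fun N f hf => ?_⟩
  have hpos : (0 : ℝ) ≤ ((3 * m : ℕ) : ℝ) ^ (1 + 1 / 1000 : ℝ) := by positivity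
  have hne : ∀ φ : Fin (3 * m) → Fin N, Function.Injective φ → ∀ e ∈ G.edgeSet,
      ¬ (Sym2.map φ e).IsDiag := by
    intro φ hφ e he hd
    induction e using Sym2.inductionOn with
    | hf x y =>
      rw [Sym2.map_mk] at hd
      have h1 : φ x = φ y := by simpa using hd
      exact (G.ne_of_adj (by simpa using he)) (hφ h1)
  constructor
  · intro E hE
    have hEw : E.card ≤ w * m := by
      have h1 : (E.card : ℝ) ≤ (w : ℝ) * m := by linarith
      exact_mod_cast h1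
    obtain ⟨B, hB⟩ := hσ (Fin N) f Unit inferInstance (fun _ => E) (fun _ => hEw) (by
      intro t
      refine (Set.ncard_le_ncard (Set.subset_univ _)).trans ?_
      rw [Set.ncard_univ, Nat.card_eq_fintype_card, Fintype.card_unit]
      omega)
    refine ⟨fun x => decide (x ∈ B), ?_⟩
    rintro ⟨φ, hφ, hφE, b, hb, hord⟩
    obtain ⟨ψ, hψi, hψo, hψe⟩ := htr N f φ hφ hord
    have hcopy : IsCopy σ E f ψ := by
      refine ⟨hψi, ?_, hψo⟩
      intro j k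
      obtain ⟨e, he, hee⟩ := hψe j k
      rw [hee]
      exact hφE e he
    obtain ⟨⟨j, k, hjk⟩, j', k', hjk'⟩ := hB () ψ hcopy
    obtain ⟨e, he, hee⟩ := hψe j k
    obtain ⟨e', he', hee'⟩ := hψe j' k'
    have h1 := hb e he
    have h2 := hb e' he'
    rw [← hee] at h1
    rw [← hee'] at h2
    simp only [hjk, decide_true] at h1
    simp only [hjk', decide_false] at h2
    rw [← h1] at h2
    exact Bool.false_ne_true h2
  · set L : ℕ := ⌊((3 * m : ℕ) : ℝ) ^ (1 + 1 / 1000 : ℝ)⌋₊ + 1 with hL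
    have hLw : 2 * L ≤ w * m := by
      have h0 : ((⌊((3 * m : ℕ) : ℝ) ^ (1 + 1 / 1000 : ℝ)⌋₊ : ℕ) : ℝ) ≤
          ((3 * m : ℕ) : ℝ) ^ (1 + 1 / 1000 : ℝ) := Nat.floor_le hpos
      have h1 : ((2 * L : ℕ) : ℝ) ≤ ((w * m : ℕ) : ℝ) := by
        rw [hL]
        push_cast at h0 hwm ⊢
        linarith
      exact_mod_cast h1
    obtain ⟨ι, hι, E, hEc, hEd, hES⟩ := windows f hf L (by omega)
    obtain ⟨B, hB⟩ := hσ (Fin N) f ι hι E (fun t => (hEc t).trans hLw)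
      (fun t => (hEd t).trans hw3)
    refine ⟨fun x => decide (x ∈ B), ?_⟩
    rintro φ hφ ⟨b, hb, hord⟩
    obtain ⟨ψ, hψi, hψo, hψe⟩ := htr N f φ hφ hord
    by_contra hcon
    push Not at hcon
    set S : Finset (Sym2 (Fin N)) :=
      Finset.univ.filter (fun x => ∃ e ∈ G.edgeSet, x = Sym2.map φ e) with hS
    have hSmem : ∀ x, x ∈ S ↔ ∃ e ∈ G.edgeSet, x = Sym2.map φ e := by
      intro x
      simp [hS]
    have hSne : S.Nonempty := by
      obtain ⟨e, he, hee⟩ := hψe ⟨0, hm1⟩ 0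
      exact ⟨_, (hSmem _).2 ⟨e, he, hee⟩⟩
    have hcount : {x : Sym2 (Fin N) | ¬ x.IsDiag ∧
        ∃ e ∈ S, ∃ e' ∈ S, f e ≤ f x ∧ f x ≤ f e'}.ncard < L := by
      have hset : {x : Sym2 (Fin N) | ¬ x.IsDiag ∧ ∃ e ∈ G.edgeSet, ∃ e' ∈ G.edgeSet,
          f (Sym2.map φ e) ≤ f x ∧ f x ≤ f (Sym2.map φ e')} =
          {x : Sym2 (Fin N) | ¬ x.IsDiag ∧ ∃ e ∈ S, ∃ e' ∈ S, f e ≤ f x ∧ f x ≤ f e'} := by
        ext x
        simp only [Set.mem_ofPred_eq]
        constructor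
        · rintro ⟨h1, e, he, e', he', h2, h3⟩
          exact ⟨h1, _, (hSmem _).2 ⟨e, he, rfl⟩, _, (hSmem _).2 ⟨e', he', rfl⟩, h2, h3⟩
        · rintro ⟨h1, y, hy, y', hy', h2, h3⟩
          obtain ⟨e, he, rfl⟩ := (hSmem _).1 hy
          obtain ⟨e', he', rfl⟩ := (hSmem _).1 hy'
          exact ⟨h1, e, he, e', he', h2, h3⟩
      rw [hset] at hcon
      have h1 := Nat.le_floor hcon
      omega
    obtain ⟨t, ht⟩ := hES S hSne (by
      intro x hx
      obtain ⟨e, he, rfl⟩ := (hSmem _).1 hx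
      exact hne φ hφ e he) hcount
    have hcopy : IsCopy σ (E t) f ψ := by
      refine ⟨hψi, ?_, hψo⟩
      intro j k
      obtain ⟨e, he, hee⟩ := hψe j k
      exact ht ((hSmem _).2 ⟨e, he, hee⟩)
    obtain ⟨⟨j, k, hjk⟩, j', k', hjk'⟩ := hB t ψ hcopy
    obtain ⟨e, he, hee⟩ := hψe j k
    obtain ⟨e', he', hee'⟩ := hψe j' k'
    have h1 := hb e he
    have h2 := hb e' he'
    rw [← hee] at h1
    rw [← hee'] at h2
    simp only [hjk, decide_true] at h1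
    simp only [hjk', decide_false] at h2
    rw [← h1] at h2
    exact Bool.false_ne_true h2

end Pool.Agent.ESz
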