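import Pool.Agent.ESz.CountB
import Pool.Agent.ESz.Fact

/-!
# Existence of rigid triples of permutations

Union bound over `i : ZMod 3` and `2 ≤ p ≤ 6`. For fixed `i, p` the number of
`σ : ZMod 3 → Perm (Fin m)` for which some `(k, J)` is a Loop for `b ↦ σ (blk i b)` is
`m!` times the number of bad pairs `Bool → Perm (Fin m)` (the map
`σ ↦ (b ↦ σ (blk i b), σ i)` is a bijection: `blk i true = i+1`, `blk i false = i+2` and `i` are
the three elements of `ZMod 3`), so by `count_all` (with `ι = Fin p`) and `fact_estimate` it is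
less than `(m!)^3 / 15`. There are 15 pairs `(i, p)`, and `(m!)^3` triples.
-/

set_option autoImplicit false

namespace Pool.Agent.ESz

private theorem gd_zmod (i j : ZMod 3) : j = i ∨ j = i + 1 ∨ j = i + 2 := by
  revert i j
  decide

/-- The bad pairs. -/
private noncomputable def badP (m q p : ℕ) : Finset (Bool → Equiv.Perm (Fin m)) :=
  @Finset.filter _ (fun σ : Bool → Equiv.Perm (Fin m) =>
    ∃ (k : Fin p → Bool) (J : Fin q → Fin p → Fin m), Loop (finRotate p) σ k J)
    (fun _ => Classical.propDecidable _) Finset.univ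

/-- The bad triples at `i`. -/
private noncomputable def badT (m q p : ℕ) (i : ZMod 3) :
    Finset (ZMod 3 → Equiv.Perm (Fin m)) :=
  @Finset.filter _ (fun σ : ZMod 3 → Equiv.Perm (Fin m) =>
    ∃ (k : Fin p → Bool) (J : Fin q → Fin p → Fin m),
      Loop (finRotate p) (fun b => σ (blk i b)) k J)
    (fun _ => Classical.propDecidable _) Finset.univ

private theorem mem_badP {m q p : ℕ} (σ : Bool → Equiv.Perm (Fin m)) :
    σ ∈ badP m q p ↔
      ∃ (k : Fin p → Bool) (J : Fin q → Fin p → Fin m), Loop (finRotate p) σ k J := by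
  simp only [badP, Finset.mem_filter, Finset.mem_univ, true_and]

private theorem mem_badT {m q p : ℕ} (i : ZMod 3) (σ : ZMod 3 → Equiv.Perm (Fin m)) :
    σ ∈ badT m q p i ↔
      ∃ (k : Fin p → Bool) (J : Fin q → Fin p → Fin m),
        Loop (finRotate p) (fun b => σ (blk i b)) k J := by
  simp only [badT, Finset.mem_filter, Finset.mem_univ, true_and]

private theorem gd_badP {m q : ℕ} (hq1 : 12 ^ 7 * m ^ 6 ≤ q ^ 7) (hq2 : q ≤ 3 * m)
    (hq3 : 1 ≤ q) {p : ℕ} (hp : p ∈ Finset.Icc 2 6) :
    15 * (badP m q p).card < m.factorial ^ 2 := by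
  have hp0 : 2 ≤ p := (Finset.mem_Icc.1 hp).1
  have : Nonempty (Fin p) := ⟨⟨0, by omega⟩⟩
  have h1 : (badP m q p).card * q.factorial ^ (p + 1) ≤
      2 ^ p * m ^ (q * p) * m.factorial ^ 2 := by
    have h := count_all (m := m) (q := q) (finRotate p)
    rw [Fintype.card_fin] at h
    refine le_trans (le_of_eq ?_) h
    congr 2
    ext σ
    simp only [mem_badP, Finset.mem_filter, Finset.mem_univ, true_and]
  have h2 := fact_estimate hq1 hq2 hq3 hp
  rcases Nat.eq_zero_or_pos (badP m q p).card with h0 | h0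
  · rw [h0]
    have : 0 < m.factorial ^ 2 := pow_pos (Nat.factorial_pos m) 2
    simpa using this
  · have h3 : (badP m q p).card * (15 * 2 ^ p * m ^ (q * p)) <
        (badP m q p).card * q.factorial ^ (p + 1) := Nat.mul_lt_mul_of_pos_left h2 h0
    have h4 : (2 ^ p * m ^ (q * p)) * (15 * (badP m q p).card) <
        (2 ^ p * m ^ (q * p)) * m.factorial ^ 2 := by
      calc (2 ^ p * m ^ (q * p)) * (15 * (badP m q p).card)
          = (badP m q p).card * (15 * 2 ^ p * m ^ (q * p)) := by ring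
        _ < _ := lt_of_lt_of_le h3 h1
    exact lt_of_mul_lt_mul_left h4 (Nat.zero_le _)

private theorem gd_badT {m q p : ℕ} (i : ZMod 3) :
    (badT m q p i).card ≤ (badP m q p).card * m.factorial := by
  have h1 : (Finset.univ : Finset (Equiv.Perm (Fin m))).card = m.factorial := by
    rw [Finset.card_univ, Fintype.card_perm, Fintype.card_fin]
  rw [← h1, ← Finset.card_product]
  refine Finset.card_le_card_of_injOn
    (fun σ => ((fun b => σ (blk i b)), σ i)) (fun σ hσ => ?_) ?_
  · have h2 := (mem_badT i σ).1 (Finset.mem_coe.1 hσ)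
    refine Finset.mem_coe.2 (Finset.mem_product.2 ⟨?_, Finset.mem_univ _⟩)
    exact (mem_badP _).2 h2
  · intro σ _ σ' _ he
    have h2 := (Prod.mk.inj he).1
    have h3 : σ i = σ' i := (Prod.mk.inj he).2
    have h4 : σ (i + 1) = σ' (i + 1) := congrFun h2 true
    have h5 : σ (i + 2) = σ' (i + 2) := congrFun h2 false
    funext j
    rcases gd_zmod i j with h | h | h
    · rw [h, h3]
    · rw [h, h4]
    · rw [h, h5]

/-- Rigid triples exist. -/
theorem exists_rigid {m q : ℕ} (hq1 : 12 ^ 7 * m ^ 6 ≤ q ^ 7) (hq2 : q ≤ 3 * m) (hq3 : 1 ≤ q) :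
    ∃ σ : ZMod 3 → Equiv.Perm (Fin m), Rigid q σ := by
  by_contra hcon
  have hall : ∀ σ : ZMod 3 → Equiv.Perm (Fin m), ¬ Rigid q σ := fun σ hσ => hcon ⟨σ, hσ⟩
  have hsub : (Finset.univ : Finset (ZMod 3 → Equiv.Perm (Fin m))) ⊆
      ((Finset.univ : Finset (ZMod 3)) ×ˢ Finset.Icc 2 6).biUnion
        (fun x => badT m q x.2 x.1) := by
    intro σ _
    have h1 := hall σ
    unfold Rigid at h1
    push Not at h1
    obtain ⟨i, p, hp, k, J, hL⟩ := h1
    refine Finset.mem_biUnion.2 ⟨(i, p), Finset.mem_product.2 ⟨Finset.mem_univ _, hp⟩, ?_⟩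
    exact (mem_badT i σ).2 ⟨k, J, hL⟩
  have hcard : Fintype.card (ZMod 3 → Equiv.Perm (Fin m)) = m.factorial ^ 3 := by
    rw [Fintype.card_fun, ZMod.card, Fintype.card_perm, Fintype.card_fin]
  have h1 := (Finset.card_le_card hsub).trans Finset.card_biUnion_le
  rw [Finset.card_univ, hcard] at h1
  have hN : 0 < m.factorial := Nat.factorial_pos m
  have h2 : ∀ x ∈ (Finset.univ : Finset (ZMod 3)) ×ˢ Finset.Icc 2 6,
      15 * (badT m q x.2 x.1).card < m.factorial ^ 3 := by
    intro x hx
    have hp := (Finset.mem_product.1 hx).2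
    have h3 := gd_badP hq1 hq2 hq3 hp
    calc 15 * (badT m q x.2 x.1).card
        ≤ 15 * ((badP m q x.2).card * m.factorial) := Nat.mul_le_mul_left _ (gd_badT x.1)
      _ = (15 * (badP m q x.2).card) * m.factorial := by ring
      _ < m.factorial ^ 2 * m.factorial := Nat.mul_lt_mul_of_pos_right h3 hN
      _ = m.factorial ^ 3 := by ring
  have hne : ((Finset.univ : Finset (ZMod 3)) ×ˢ Finset.Icc 2 6).Nonempty :=
    ⟨(0, 2), Finset.mem_product.2 ⟨Finset.mem_univ _, Finset.mem_Icc.2 ⟨le_rfl, by norm_num⟩⟩⟩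
  have h4 := Finset.sum_lt_sum_of_nonempty hne h2
  rw [← Finset.mul_sum, Finset.sum_const, Finset.card_product, Finset.card_univ, ZMod.card,
    Nat.card_Icc, smul_eq_mul] at h4
  omega

end Pool.Agent.ESz
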