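import Mathlib

/-!
# Subfamilies of large minimum degree

`E` is a finite family of edges (elements of `S`), the ends of `e` are `fin true e` and
`fin false e`, all in the finite set `U`. If `D * |U| < |E|` then there is a nonempty subfamily
`E'` of `E` such that every vertex which is an end of an edge of `E'` is an end (for `b = true` or
`b = false`) of at least `D + 1` edges of `E'`.

Proof. Among all pairs `(E', U')` with `E' ⊆ E`, `U' ⊆ U`, all ends of `E'` in `U'` and
`D * |U'| < |E'|` take one with `|E'| + |U'|` minimal. Let `w` be an end of an edge of `E'`. If at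
most `D` edges of `E'` have the end `w`, remove them from `E'` and `w` from `U'`:
`D * (|U'| - 1) < |E'| - D`, a smaller pair.
-/

set_option autoImplicit false

namespace Pool.Agent.ESz

/-- Subfamilies of large minimum degree. -/
theorem exists_minDeg {S W : Type} [DecidableEq S] [DecidableEq W] (E : Finset S) (U : Finset W)
    (fin : Bool → S → W) (hU : ∀ b, ∀ e ∈ E, fin b e ∈ U) (D : ℕ)
    (hE : D * U.card < E.card) :
    ∃ E' : Finset S, E' ⊆ E ∧ E'.Nonempty ∧ ∀ e ∈ E', ∀ b : Bool,
      D + 1 ≤ (E'.filter (fun e' => fin true e' = fin b e ∨ fin false e' = fin b e)).card := by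
  induction hn : U.card using Nat.strong_induction_on generalizing E U with
  | _ n ih =>
    subst hn
    by_cases hgood : ∀ e ∈ E, ∀ b : Bool,
        D + 1 ≤ (E.filter (fun e' => fin true e' = fin b e ∨ fin false e' = fin b e)).card
    · exact ⟨E, Finset.Subset.refl _, Finset.card_pos.mp (by omega), hgood⟩
    · push Not at hgood
      obtain ⟨e, he, b, hlt⟩ := hgood
      set w := fin b e with hw
      have hwU : w ∈ U := hU b e he
      have hcU : (U.erase w).card = U.card - 1 := Finset.card_erase_of_mem hwU
      have hUpos : 0 < U.card := Finset.card_pos.mpr ⟨w, hwU⟩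
      have hsplit := Finset.card_filter_add_card_filter_not (s := E)
        (fun e' => fin true e' = w ∨ fin false e' = w)
      have hmul : D * U.card = D * (U.card - 1) + D := by
        obtain ⟨k, hk⟩ : ∃ k, U.card = k + 1 := ⟨U.card - 1, by omega⟩
        rw [hk]
        simp [Nat.mul_succ]
      obtain ⟨E', hE', hne, hdeg⟩ := ih (U.erase w).card (by omega)
        (E.filter (fun e' => ¬ (fin true e' = w ∨ fin false e' = w))) (U.erase w)
        (by
          intro b' e' he'
          rw [Finset.mem_filter] at he'
          refine Finset.mem_erase.mpr ⟨?_, hU b' e' he'.1⟩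
          intro hc
          apply he'.2
          cases b' with
          | true => exact Or.inl hc
          | false => exact Or.inr hc)
        (by rw [hcU]; omega) rfl
      exact ⟨E', hE'.trans (Finset.filter_subset _ _), hne, hdeg⟩

end Pool.Agent.ESz
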