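import Mathlib

/-!
# Non-backtracking walks

Oriented edges are pairs `(e, b) : S × Bool`; the head of `(e, b)` is `fin b e` and its tail is
`fin (!b) e`. `Nb fin E a a'`: `a'` may follow `a` (both in `E`, different underlying edges, tail
of `a'` = head of `a`).
-/

set_option autoImplicit false

namespace Pool.Agent.ESz

/-- The oriented edge `a'` may follow the oriented edge `a`. -/
def Nb {S W : Type} (fin : Bool → S → W) (E : Finset S) (a a' : S × Bool) : Prop :=
  a.1 ∈ E ∧ a'.1 ∈ E ∧ a.1 ≠ a'.1 ∧ fin (!a'.2) a'.1 = fin a.2 a.1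

/-- `a` is a closed non-backtracking walk of length `p` (a `p`-periodic sequence). -/
def Closed {S W : Type} (fin : Bool → S → W) (E : Finset S) (p : ℕ) (a : ℕ → S × Bool) : Prop :=
  1 ≤ p ∧ (∀ n, Nb fin E (a n) (a (n + 1))) ∧ ∀ n, a (n + p) = a n

/-- Reversal of an oriented edge. -/
def rv {S : Type} (a : S × Bool) : S × Bool := (a.1, !a.2)

private theorem Walk_periodic {S W : Type} (fin : Bool → S → W) (E : Finset S) (p : ℕ)
    (hp : 1 ≤ p) (f : ℕ → S × Bool) (h1 : ∀ n, n + 1 < p → Nb fin E (f n) (f (n + 1)))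
    (h2 : Nb fin E (f (p - 1)) (f 0)) : Closed fin E p fun n => f (n % p) := by
  refine ⟨hp, fun n => ?_, fun n => ?_⟩
  · show Nb fin E (f (n % p)) (f ((n + 1) % p))
    have hlt : n % p < p := Nat.mod_lt _ (by omega)
    by_cases h : n % p + 1 < p
    · have e : (n + 1) % p = n % p + 1 := by
        rw [Nat.add_mod]
        rcases Nat.eq_or_lt_of_le hp with h3 | h3
        · omega
        · rw [Nat.mod_eq_of_lt h3, Nat.mod_eq_of_lt h]
      rw [e]
      exact h1 _ h
    · have e1 : n % p = p - 1 := by omega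
      have e2 : (n + 1) % p = 0 := by
        apply Nat.mod_eq_zero_of_dvd
        refine ⟨n / p + 1, ?_⟩
        have := Nat.div_add_mod n p
        rw [mul_add, mul_one]
        omega
      rw [e1, e2]
      exact h2
  · show f ((n + p) % p) = f (n % p)
    rw [Nat.add_mod_right]

/-- two different oriented edges with the same head have different underlying edges -/
private theorem Walk_head {S W : Type} (fin : Bool → S → W) (E : Finset S)
    (hne : ∀ e ∈ E, fin true e ≠ fin false e) (a a' : S × Bool) (ha : a.1 ∈ E)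
    (h : fin a.2 a.1 = fin a'.2 a'.1) (hd : a ≠ a') : a.1 ≠ a'.1 := by
  intro h1
  apply hd
  obtain ⟨e, b⟩ := a
  obtain ⟨e', b'⟩ := a'
  simp only at h1 h ha
  subst h1
  have h3 := hne e ha
  cases b <;> cases b'
  · rfl
  · exact absurd h.symm h3
  · exact absurd h h3
  · rfl

private theorem Walk_tail {S W : Type} (fin : Bool → S → W) (E : Finset S)
    (hne : ∀ e ∈ E, fin true e ≠ fin false e) (a a' : S × Bool) (ha : a.1 ∈ E)
    (h : fin (!a.2) a.1 = fin (!a'.2) a'.1) (hd : a ≠ a') : a.1 ≠ a'.1 := by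
  intro h1
  apply hd
  obtain ⟨e, b⟩ := a
  obtain ⟨e', b'⟩ := a'
  simp only at h1 h ha
  subst h1
  have h3 := hne e ha
  cases b <;> cases b'
  · rfl
  · exact absurd h h3
  · exact absurd h.symm h3
  · rfl

private theorem Walk_seg {S W : Type} (fin : Bool → S → W) (E : Finset S)
    (hne : ∀ e ∈ E, fin true e ≠ fin false e) (a a' : ℕ → S × Bool) (i L : ℕ) (hL : 1 ≤ L)
    (ha : ∀ n < i + L + 1, Nb fin E (a n) (a (n + 1)))
    (ha' : ∀ n < i + L + 1, Nb fin E (a' n) (a' (n + 1)))
    (h0 : a i = a' i) (h1 : a (i + L + 1) = a' (i + L + 1)) (h2 : a (i + 1) ≠ a' (i + 1))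
    (h3 : a (i + L) ≠ a' (i + L)) : ∃ c : ℕ → S × Bool, Closed fin E (2 * L) c := by
  refine ⟨_, Walk_periodic fin E (2 * L) (by omega)
    (fun n => if n < L then a (i + 1 + n) else rv (a' (i + 2 * L - n))) ?_ ?_⟩
  · intro n hn
    rcases lt_trichotomy (n + 1) L with h | h | h
    · simp only [if_pos (show n < L by omega), if_pos h]
      have := ha (i + 1 + n) (by omega)
      rwa [show i + 1 + n + 1 = i + 1 + (n + 1) by omega] at this
    · simp only [if_pos (show n < L by omega), if_neg (show ¬ n + 1 < L by omega)]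
      rw [show i + 1 + n = i + L by omega, show i + 2 * L - (n + 1) = i + L by omega]
      have g1 := ha (i + L) (by omega)
      have g2 := ha' (i + L) (by omega)
      rw [h1] at g1
      have g3 : fin (a (i + L)).2 (a (i + L)).1 = fin (a' (i + L)).2 (a' (i + L)).1 :=
        g1.2.2.2.symm.trans g2.2.2.2
      refine ⟨g1.1, g2.1, Walk_head fin E hne (a (i + L)) (a' (i + L)) g1.1 g3 h3, ?_⟩
      show fin (!!(a' (i + L)).2) (a' (i + L)).1 = _
      rw [Bool.not_not]
      exact g3.symm
    · simp only [if_neg (show ¬ n < L by omega), if_neg (show ¬ n + 1 < L by omega)]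
      have g := ha' (i + 2 * L - (n + 1)) (by omega)
      rw [show i + 2 * L - (n + 1) + 1 = i + 2 * L - n by omega] at g
      refine ⟨g.2.1, g.1, fun h => g.2.2.1 h.symm, ?_⟩
      show fin (!!(a' (i + 2 * L - (n + 1))).2) (a' (i + 2 * L - (n + 1))).1 =
        fin (!(a' (i + 2 * L - n)).2) (a' (i + 2 * L - n)).1
      rw [Bool.not_not]
      exact g.2.2.2.symm
  · simp only [if_pos (show 0 < L by omega), if_neg (show ¬ 2 * L - 1 < L by omega)]
    rw [show i + 1 + 0 = i + 1 by omega, show i + 2 * L - (2 * L - 1) = i + 1 by omega]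
    have g1 := ha i (by omega)
    have g2 := ha' i (by omega)
    rw [h0] at g1
    have g3 : fin (!(a' (i + 1)).2) (a' (i + 1)).1 = fin (!(a (i + 1)).2) (a (i + 1)).1 :=
      g2.2.2.2.trans g1.2.2.2.symm
    refine ⟨g2.2.1, g1.2.1,
      Walk_tail fin E hne (a' (i + 1)) (a (i + 1)) g2.2.1 g3 (Ne.symm h2), ?_⟩
    exact g3.symm

/-- Two different walks of length `4` with the same first and the same last oriented edge give a
closed walk of length at most `6`.

Proof. Let `i` be such that `a i = a' i`, `a (i+1) ≠ a' (i+1)` (`i ≤ 2`), and `j > i + 1` minimal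
with `a j = a' j` (`j ≤ 4`). The walk `a (i+1), .., a (j-1), rv (a' (j-1)), .., rv (a' (i+1))`
is closed, of length `2 (j - 1 - i) ≤ 6`. Turning points: `a (j-1)` and `a' (j-1)` have the same
head (the tail of `a j`) and are different, so their underlying edges are different, since the two
ends of an edge are different (`hne`); the same at `i + 1` with tails. Inside the reversed part:
`Nb (rv b') (rv b)` follows from `Nb b b'`. -/
theorem closed_of_two {S W : Type} (fin : Bool → S → W) (E : Finset S)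
    (hne : ∀ e ∈ E, fin true e ≠ fin false e) (a a' : ℕ → S × Bool)
    (ha : ∀ n < 4, Nb fin E (a n) (a (n + 1))) (ha' : ∀ n < 4, Nb fin E (a' n) (a' (n + 1)))
    (h0 : a 0 = a' 0) (h4 : a 4 = a' 4) (hd : ∃ n ≤ 4, a n ≠ a' n) :
    ∃ p ≤ 6, ∃ c : ℕ → S × Bool, Closed fin E p c := by
  have key : ∀ i L : ℕ, 1 ≤ L → i + L + 1 ≤ 4 → a i = a' i →
      a (i + L + 1) = a' (i + L + 1) → a (i + 1) ≠ a' (i + 1) → a (i + L) ≠ a' (i + L) →
      ∃ p ≤ 6, ∃ c : ℕ → S × Bool, Closed fin E p c := by
    intro i L hL hi g0 g1 g2 g3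
    obtain ⟨c, hc⟩ := Walk_seg fin E hne a a' i L hL (fun n hn => ha n (by omega))
      (fun n hn => ha' n (by omega)) g0 g1 g2 g3
    exact ⟨2 * L, by omega, c, hc⟩
  by_cases e1 : a 1 = a' 1
  · by_cases e2 : a 2 = a' 2
    · by_cases e3 : a 3 = a' 3
      · exfalso
        obtain ⟨n, hn, hn'⟩ := hd
        interval_cases n <;> contradiction
      · exact key 2 1 le_rfl le_rfl e2 h4 e3 e3
    · by_cases e3 : a 3 = a' 3
      · exact key 1 1 le_rfl (by omega) e1 e3 e2 e2
      · exact key 1 2 (by omega) le_rfl e1 h4 e2 e3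
  · by_cases e2 : a 2 = a' 2
    · exact key 0 1 le_rfl (by omega) h0 e2 e1 e1
    · by_cases e3 : a 3 = a' 3
      · exact key 0 2 (by omega) (by omega) h0 e3 e1 e2
      · exact key 0 3 (by omega) le_rfl h0 h4 e1 e3

end Pool.Agent.ESz
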